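import Mathlib

open Module

namespace Pool.Agent.Helper51.KT

variable {V : Type} [NormedAddCommGroup V] [InnerProductSpace ℂ V] [FiniteDimensional ℂ V]

/-- Top eigenvalue of a symmetric operator. -/
lemma top_eig [Nontrivial V] {T : V →ₗ[ℂ] V} (hT : T.IsSymmetric) :
    ∃ μ : ℝ, End.HasEigenvalue T (μ : ℂ) ∧ ∀ v : V, (inner ℂ (T v) v).re ≤ μ * ‖v‖ ^ 2 := by
  refine ⟨_, hT.hasEigenvalue_iSup_of_finiteDimensional, fun v => ?_⟩
  have hbdd : BddAbove (Set.range fun x : { x : V // x ≠ 0 } =>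
      RCLike.re (inner ℂ (T x) (x : V)) / ‖(x : V)‖ ^ 2) := by
    refine ⟨‖LinearMap.toContinuousLinearMap T‖, ?_⟩
    rintro _ ⟨⟨x, hx⟩, rfl⟩
    have hx' : 0 < ‖x‖ := norm_pos_iff.mpr hx
    simp only
    rw [div_le_iff₀ (by positivity)]
    calc RCLike.re (inner ℂ (T x) x) ≤ ‖inner ℂ (T x) x‖ := RCLike.re_le_norm _
      _ ≤ ‖T x‖ * ‖x‖ := norm_inner_le_norm _ _
      _ ≤ (‖LinearMap.toContinuousLinearMap T‖ * ‖x‖) * ‖x‖ := by
          gcongr
          exact (LinearMap.toContinuousLinearMap T).le_opNorm x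
      _ = _ := by ring
  rcases eq_or_ne v 0 with rfl | hv
  · simp
  · have hx' : 0 < ‖v‖ := norm_pos_iff.mpr hv
    have := le_ciSup hbdd ⟨v, hv⟩
    simp only at this
    rw [div_le_iff₀ (by positivity)] at this
    exact this

variable {H : Type} [Group H] [Fintype H]

/-- Lemma A: second moment of matrix coefficients. -/
lemma coeff_bound (a : H →* (V →ₗ[ℂ] V)) (ha : ∀ h v w, inner ℂ (a h v) (a h w) = inner ℂ v w)
    (Q : ℝ) (hQ : 0 < Q)
    (hW : ∀ W : Submodule ℂ V, W ≠ ⊥ → (∀ h, ∀ w ∈ W, a h w ∈ W) → Q ≤ finrank ℂ W)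
    (u w : V) :
    ∑ h : H, ‖inner ℂ (a h u) w‖ ^ 2 ≤ (Fintype.card H : ℝ) * ‖u‖ ^ 2 * ‖w‖ ^ 2 / Q := by
  classical
  rcases subsingleton_or_nontrivial V with hV | hV
  · have : u = 0 := Subsingleton.elim _ _
    subst this
    simp
  let M : V →ₗ[ℂ] V :=
    { toFun := fun v => ∑ h : H, inner ℂ (a h u) v • a h u
      map_add' := by
        intro x y
        simp only [inner_add_right, add_smul, Finset.sum_add_distrib]
      map_smul' := by
        intro c x
        simp only [inner_smul_right, mul_smul, Finset.smul_sum, RingHom.id_apply] }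
  have hMd : ∀ v, M v = ∑ h : H, inner ℂ (a h u) v • a h u := fun v => rfl
  have hM : M.IsSymmetric := by
    intro x y
    rw [hMd, hMd, sum_inner, inner_sum]
    refine Finset.sum_congr rfl fun h _ => ?_
    rw [inner_smul_left, inner_smul_right, inner_conj_symm, mul_comm]
  have hMv : ∀ v, inner ℂ (M v) v = ((∑ h : H, ‖inner ℂ (a h u) v‖ ^ 2 : ℝ) : ℂ) := by
    intro v
    rw [hMd, sum_inner]
    push_cast
    refine Finset.sum_congr rfl fun h _ => ?_
    rw [inner_smul_left, mul_comm]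
    exact RCLike.mul_conj _
  obtain ⟨μ, hμ, hle⟩ := top_eig hM
  have hcomm : ∀ k v, M (a k v) = a k (M v) := by
    intro k v
    rw [hMd, hMd, map_sum]
    rw [← Equiv.sum_comp (Equiv.mulLeft k)]
    refine Finset.sum_congr rfl fun h _ => ?_
    simp only [Equiv.coe_mulLeft, map_mul, Module.End.mul_apply, map_smul]
    rw [ha]
  set W := End.eigenspace M (μ : ℂ) with hWdef
  have hWne : W ≠ ⊥ := hμ
  have hWinv : ∀ h, ∀ w ∈ W, a h w ∈ W := by
    intro h x hx
    rw [hWdef, End.mem_eigenspace_iff] at hx ⊢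
    rw [hcomm, hx, map_smul]
  have hdim := hW W hWne hWinv
  -- μ dim W ≤ |H| |u|^2
  have key : μ * finrank ℂ W ≤ (Fintype.card H : ℝ) * ‖u‖ ^ 2 := by
    let b := stdOrthonormalBasis ℂ W
    have hon : Orthonormal ℂ (fun i => (b i : V)) := by
      have := b.orthonormal
      rw [orthonormal_iff_ite] at this ⊢
      intro i j
      rw [← this i j]
      rfl
    have h1 : ∀ j, ∑ h : H, ‖inner ℂ (a h u) (b j : V)‖ ^ 2 = μ := by
      intro j
      have h2 := hMv (b j : V)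
      have h3 : M (b j : V) = (μ : ℂ) • (b j : V) := End.mem_eigenspace_iff.mp (b j).2
      rw [h3, inner_smul_left, inner_self_eq_norm_sq_to_K] at h2
      have h4 : ‖(b j : V)‖ = 1 := hon.1 j
      rw [h4] at h2
      simp only [Complex.conj_ofReal, Complex.coe_algebraMap, Complex.ofReal_one, one_pow, mul_one] at h2
      exact_mod_cast h2.symm
    calc μ * finrank ℂ W = ∑ j : Fin (finrank ℂ W), ∑ h : H, ‖inner ℂ (a h u) (b j : V)‖ ^ 2 := by
          simp only [h1, Finset.sum_const, Finset.card_univ, Fintype.card_fin, nsmul_eq_mul]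
          ring
      _ = ∑ h : H, ∑ j : Fin (finrank ℂ W), ‖inner ℂ (a h u) (b j : V)‖ ^ 2 := Finset.sum_comm
      _ ≤ ∑ h : H, ‖u‖ ^ 2 := by
          refine Finset.sum_le_sum fun h _ => ?_
          have h5 := hon.sum_inner_products_le (a h u) (s := Finset.univ)
          have h6 : ‖a h u‖ ^ 2 = ‖u‖ ^ 2 := by
            rw [@norm_sq_eq_re_inner ℂ, @norm_sq_eq_re_inner ℂ, ha]
          rw [h6] at h5
          refine le_trans (le_of_eq ?_) h5
          refine Finset.sum_congr rfl fun j _ => ?_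
          rw [norm_inner_symm]
      _ = _ := by simp
  have hμ0 : 0 ≤ μ * ‖w‖ ^ 2 := by
    refine le_trans ?_ (hle w)
    rw [hMv w, Complex.ofReal_re]
    positivity
  have h7 : ∑ h : H, ‖inner ℂ (a h u) w‖ ^ 2 ≤ μ * ‖w‖ ^ 2 := by
    have := hle w
    rwa [hMv w, Complex.ofReal_re] at this
  refine h7.trans ?_
  rw [le_div_iff₀ hQ]
  calc μ * ‖w‖ ^ 2 * Q ≤ μ * ‖w‖ ^ 2 * finrank ℂ W := by gcongr
    _ = (μ * finrank ℂ W) * ‖w‖ ^ 2 := by ring
    _ ≤ _ := by gcongr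

/-- Lemma B: the twisted average of two commuting unitary representations is small. -/
lemma avg_bound (a b : H →* (V →ₗ[ℂ] V)) (ha : ∀ h v w, inner ℂ (a h v) (a h w) = inner ℂ v w)
    (hb : ∀ h v w, inner ℂ (b h v) (b h w) = inner ℂ v w)
    (hab : ∀ h k v, a h (b k v) = b k (a h v))
    (q : ℝ) (hq : 0 < q)
    (hW : ∀ W : Submodule ℂ V, W ≠ ⊥ → (∀ h, ∀ w ∈ W, a h w ∈ W) → q ^ 4 ≤ finrank ℂ W)
    (v : V) :
    ‖∑ h : H, a h (b h⁻¹ v)‖ ≤ (Fintype.card H : ℝ) * ‖v‖ / q := by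
  classical
  rcases subsingleton_or_nontrivial V with hV | hV
  · have : v = 0 := Subsingleton.elim _ _
    subst this
    simp
  have hnorma : ∀ h v, ‖a h v‖ = ‖v‖ := by
    intro h v
    have : ‖a h v‖ ^ 2 = ‖v‖ ^ 2 := by
      rw [@norm_sq_eq_re_inner ℂ, @norm_sq_eq_re_inner ℂ, ha]
    exact (pow_left_inj₀ (norm_nonneg _) (norm_nonneg _) two_ne_zero).mp this
  have hnormb : ∀ h v, ‖b h v‖ = ‖v‖ := by
    intro h v
    have : ‖b h v‖ ^ 2 = ‖v‖ ^ 2 := by
      rw [@norm_sq_eq_re_inner ℂ, @norm_sq_eq_re_inner ℂ, hb]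
    exact (pow_left_inj₀ (norm_nonneg _) (norm_nonneg _) two_ne_zero).mp this
  have haa : ∀ h x y, inner ℂ (a h x) y = inner ℂ x (a h⁻¹ y) := by
    intro h x y
    rw [← ha h x (a h⁻¹ y), ← Module.End.mul_apply, ← map_mul, mul_inv_cancel, map_one,
      Module.End.one_apply]
  have hbb : ∀ h x y, inner ℂ (b h x) y = inner ℂ x (b h⁻¹ y) := by
    intro h x y
    rw [← hb h x (b h⁻¹ y), ← Module.End.mul_apply, ← map_mul, mul_inv_cancel, map_one,
      Module.End.one_apply]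
  let K : V →ₗ[ℂ] V := ∑ h : H, a h * b h⁻¹
  have hKd : ∀ v, K v = ∑ h : H, a h (b h⁻¹ v) := by
    intro v
    simp only [K, LinearMap.sum_apply, Module.End.mul_apply]
  have hK : K.IsSymmetric := by
    intro x y
    rw [hKd, hKd, sum_inner, inner_sum]
    rw [← Equiv.sum_comp (Equiv.inv H)]
    refine Finset.sum_congr rfl fun h _ => ?_
    simp only [Equiv.inv_apply, inv_inv]
    rw [haa, hbb, inv_inv, hab]
  have hKa : ∀ k v, K (a k v) = b k (K v) := by
    intro k v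
    rw [hKd, hKd, map_sum]
    rw [← Equiv.sum_comp (Equiv.mulRight k⁻¹)]
    refine Finset.sum_congr rfl fun h _ => ?_
    simp only [Equiv.coe_mulRight, mul_inv_rev, inv_inv, map_mul, Module.End.mul_apply]
    have e1 : a k⁻¹ (a k (b k (b h⁻¹ v))) = b k (b h⁻¹ v) := by
      rw [← Module.End.mul_apply (a _) (a _), ← map_mul, inv_mul_cancel, map_one,
        Module.End.one_apply]
    rw [← hab k h⁻¹ v, ← hab k k, e1, hab]
  have hKb : ∀ k v, K (b k v) = a k (K v) := by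
    intro k v
    rw [hKd, hKd, map_sum]
    rw [← Equiv.sum_comp (Equiv.mulLeft k)]
    refine Finset.sum_congr rfl fun h _ => ?_
    simp only [Equiv.coe_mulLeft, mul_inv_rev, map_mul, Module.End.mul_apply]
    rw [← Module.End.mul_apply (b k⁻¹), ← map_mul, inv_mul_cancel, map_one, Module.End.one_apply]
  have hT : (K * K).IsSymmetric := by
    intro x y
    simp only [Module.End.mul_apply]
    rw [hK, hK]
  obtain ⟨κ, hκ, hle⟩ := top_eig hT
  have hTv : ∀ v, inner ℂ ((K * K) v) v = ((‖K v‖ ^ 2 : ℝ) : ℂ) := by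
    intro v
    rw [Module.End.mul_apply, hK, inner_self_eq_norm_sq_to_K]
    push_cast
    rfl
  -- minimal invariant subspace of the top eigenspace
  let P : Submodule ℂ V → Prop := fun E => E ≠ ⊥ ∧ E ≤ End.eigenspace (K * K) (κ : ℂ) ∧
    (∀ h, ∀ w ∈ E, a h w ∈ E) ∧ (∀ h, ∀ w ∈ E, b h w ∈ E)
  have hex : ∃ m : ℕ, ∃ E, P E ∧ finrank ℂ E = m := by
    refine ⟨_, End.eigenspace (K * K) (κ : ℂ), ⟨hκ, le_rfl, ?_, ?_⟩, rfl⟩
    · intro h w hw
      rw [End.mem_eigenspace_iff] at hw ⊢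
      rw [Module.End.mul_apply] at hw ⊢
      rw [hKa, hKb, hw, map_smul]
    · intro h w hw
      rw [End.mem_eigenspace_iff] at hw ⊢
      rw [Module.End.mul_apply] at hw ⊢
      rw [hKb, hKa, hw, map_smul]
  obtain ⟨E, ⟨hE0, hEle, hEa, hEb⟩, hEm⟩ := Nat.find_spec hex
  have hEmin : ∀ F, P F → finrank ℂ E ≤ finrank ℂ F := by
    intro F hF
    rw [hEm]
    exact Nat.find_min' hex ⟨F, hF, rfl⟩
  -- scalars
  have hscal : ∀ g : H, ∃ c : ℂ, ‖c‖ ≤ Fintype.card H ∧
      ∀ e ∈ E, ∑ k : H, b (k * g⁻¹ * k⁻¹) e = c • e := by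
    intro g
    let C : V →ₗ[ℂ] V := ∑ k : H, b (k * g⁻¹ * k⁻¹)
    have hCd : ∀ v, C v = ∑ k : H, b (k * g⁻¹ * k⁻¹) v := by
      intro v
      simp only [C, LinearMap.sum_apply]
    have hCE : ∀ e ∈ E, C e ∈ E := by
      intro e he
      rw [hCd]
      exact Submodule.sum_mem _ fun k _ => hEb _ _ he
    have hCa : ∀ h v, C (a h v) = a h (C v) := by
      intro h v
      rw [hCd, hCd, map_sum]
      exact Finset.sum_congr rfl fun k _ => (hab _ _ _).symm
    have hCb : ∀ h v, C (b h v) = b h (C v) := by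
      intro h v
      rw [hCd, hCd, map_sum]
      rw [← Equiv.sum_comp (Equiv.mulLeft h)]
      refine Finset.sum_congr rfl fun k _ => ?_
      simp only [Equiv.coe_mulLeft, ← Module.End.mul_apply, ← map_mul]
      congr 2
      group
    have hEnt : Nontrivial E := (Submodule.nontrivial_iff_ne_bot).mpr hE0
    obtain ⟨c, hc⟩ := Module.End.exists_eigenvalue (C.restrict hCE)
    obtain ⟨e0, he0⟩ := hc.exists_hasEigenvector
    have he0' : C (e0 : V) = c • (e0 : V) := by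
      have := he0.apply_eq_smul
      have := congrArg (Subtype.val) this
      simpa using this
    have he0n : (e0 : V) ≠ 0 := by
      simpa using he0.2
    let F : Submodule ℂ V := E ⊓ End.eigenspace C c
    have hPF : P F := by
      refine ⟨?_, inf_le_left.trans hEle, ?_, ?_⟩
      · rw [Submodule.ne_bot_iff]
        exact ⟨e0, ⟨e0.2, End.mem_eigenspace_iff.mpr he0'⟩, he0n⟩
      · rintro h w ⟨hw1, hw2⟩
        refine ⟨hEa h w hw1, ?_⟩
        have := End.mem_eigenspace_iff.mp hw2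
        exact End.mem_eigenspace_iff.mpr (by rw [hCa, this, map_smul])
      · rintro h w ⟨hw1, hw2⟩
        refine ⟨hEb h w hw1, ?_⟩
        have := End.mem_eigenspace_iff.mp hw2
        exact End.mem_eigenspace_iff.mpr (by rw [hCb, this, map_smul])
    have hFE : F = E := Submodule.eq_of_le_of_finrank_le inf_le_left (hEmin F hPF)
    have hCc : ∀ e ∈ E, C e = c • e := by
      intro e he
      rw [← hFE] at he
      exact End.mem_eigenspace_iff.mp he.2
    refine ⟨c, ?_, fun e he => by rw [← hCd]; exact hCc e he⟩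
    have h1 : ‖c‖ * ‖(e0 : V)‖ ≤ Fintype.card H * ‖(e0 : V)‖ := by
      rw [← norm_smul, ← he0', hCd]
      refine (norm_sum_le _ _).trans ?_
      simp only [hnormb, Finset.sum_const, Finset.card_univ, nsmul_eq_mul]
      exact le_rfl
    exact le_of_mul_le_mul_right h1 (norm_pos_iff.mpr he0n)
  choose c hc1 hc2 using hscal
  -- K^2 on E
  have hK2 : ∀ v, (K * K) v = ∑ g : H, a g (∑ k : H, b (k * g⁻¹ * k⁻¹) v) := by
    intro v
    rw [Module.End.mul_apply, hKd]
    simp only [hKd, map_sum]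
    rw [Finset.sum_comm]
    rw [Finset.sum_comm (s := Finset.univ) (t := Finset.univ) (f := fun g k => a g (b (k * g⁻¹ * k⁻¹) v))]
    refine Finset.sum_congr rfl fun k _ => ?_
    rw [← Equiv.sum_comp (Equiv.mulRight k⁻¹)]
    refine Finset.sum_congr rfl fun g _ => ?_
    simp only [Equiv.coe_mulRight, mul_inv_rev, inv_inv]
    rw [← hab k, ← Module.End.mul_apply (a _) (a _), ← map_mul]
    rw [← Module.End.mul_apply (b _) (b _), ← map_mul]
    simp [mul_assoc]
  obtain ⟨e1, he1, he1n⟩ := (Submodule.ne_bot_iff _).mp hE0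
  have hκle : κ ≤ (Fintype.card H : ℝ) ^ 2 / q ^ 2 := by
    have hpos : 0 < ‖e1‖ := norm_pos_iff.mpr he1n
    have h1 : (κ : ℂ) * ((‖e1‖ ^ 2 : ℝ) : ℂ) = ∑ g : H, c g * inner ℂ e1 (a g e1) := by
      have h2 := End.mem_eigenspace_iff.mp (hEle he1)
      rw [hK2] at h2
      have h3 := congrArg (inner ℂ e1) h2
      rw [inner_smul_right, inner_self_eq_norm_sq_to_K, inner_sum] at h3
      rw [← Complex.coe_algebraMap] at h3 ⊢
      push_cast at h3 ⊢
      rw [← h3]
      refine Finset.sum_congr rfl fun g _ => ?_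
      rw [hc2 g e1 he1, map_smul, inner_smul_right]
    have h4 : κ * ‖e1‖ ^ 2 ≤ ∑ g : H, (Fintype.card H : ℝ) * ‖inner ℂ (a g e1) e1‖ := by
      have h5 : κ * ‖e1‖ ^ 2 ≤ ‖(κ : ℂ) * ((‖e1‖ ^ 2 : ℝ) : ℂ)‖ := by
        rw [← Complex.ofReal_mul, Complex.norm_real]
        exact le_abs_self _
      refine h5.trans ?_
      rw [h1]
      refine (norm_sum_le _ _).trans ?_
      refine Finset.sum_le_sum fun g _ => ?_
      rw [norm_mul, norm_inner_symm]
      gcongr
      exact hc1 g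
    have h6 := coeff_bound a ha (q ^ 4) (by positivity) hW e1 e1
    have h7 : (∑ g : H, ‖inner ℂ (a g e1) e1‖) ^ 2 ≤
        (Fintype.card H : ℝ) * ∑ g : H, ‖inner ℂ (a g e1) e1‖ ^ 2 := by
      have := sq_sum_le_card_mul_sum_sq (s := (Finset.univ : Finset H))
        (f := fun g => ‖inner ℂ (a g e1) e1‖)
      simpa using this
    have h8 : (∑ g : H, ‖inner ℂ (a g e1) e1‖) ^ 2 ≤
        ((Fintype.card H : ℝ) * ‖e1‖ ^ 2 / q ^ 2) ^ 2 := by
      refine h7.trans ?_
      calc (Fintype.card H : ℝ) * ∑ g : H, ‖inner ℂ (a g e1) e1‖ ^ 2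
          ≤ (Fintype.card H : ℝ) * ((Fintype.card H : ℝ) * ‖e1‖ ^ 2 * ‖e1‖ ^ 2 / q ^ 4) := by
            gcongr
        _ = _ := by ring
    have h9 : (∑ g : H, ‖inner ℂ (a g e1) e1‖) ≤ (Fintype.card H : ℝ) * ‖e1‖ ^ 2 / q ^ 2 :=
      (pow_le_pow_iff_left₀ (by positivity) (by positivity) two_ne_zero).mp h8
    have h10 : κ * ‖e1‖ ^ 2 ≤ ((Fintype.card H : ℝ) ^ 2 / q ^ 2) * ‖e1‖ ^ 2 := by
      refine h4.trans ?_
      rw [← Finset.mul_sum]
      calc (Fintype.card H : ℝ) * ∑ g : H, ‖inner ℂ (a g e1) e1‖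
          ≤ (Fintype.card H : ℝ) * ((Fintype.card H : ℝ) * ‖e1‖ ^ 2 / q ^ 2) := by gcongr
        _ = _ := by ring
    exact le_of_mul_le_mul_right h10 (by positivity)
  have h11 : ‖K v‖ ^ 2 ≤ ((Fintype.card H : ℝ) * ‖v‖ / q) ^ 2 := by
    have h12 := hle v
    rw [hTv, Complex.ofReal_re] at h12
    refine h12.trans ?_
    calc κ * ‖v‖ ^ 2 ≤ ((Fintype.card H : ℝ) ^ 2 / q ^ 2) * ‖v‖ ^ 2 := by gcongr
      _ = _ := by ring
  rw [← hKd]
  exact (pow_le_pow_iff_left₀ (by positivity) (by positivity) two_ne_zero).mp h11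

/-- Restriction of a representation to an invariant subspace. -/
def restr {H : Type} [Group H] (a : H →* (V →ₗ[ℂ] V)) (W : Submodule ℂ V)
    (hW : ∀ h, ∀ w ∈ W, a h w ∈ W) : H →* (W →ₗ[ℂ] W) where
  toFun h := (a h).restrict (hW h)
  map_one' := by
    ext w
    simp
  map_mul' := by
    intro g h
    ext w
    simp

omit [FiniteDimensional ℂ V] in
lemma restr_coe {H : Type} [Group H] (a : H →* (V →ₗ[ℂ] V)) (W : Submodule ℂ V)
    (hW : ∀ h, ∀ w ∈ W, a h w ∈ W) (h : H) (w : W) : ((restr a W hW h w : W) : V) = a h w := rfl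

/-- Abstract form of the K-trick. -/
lemma k_trick_abs (a b : H →* (V →ₗ[ℂ] V)) (ha : ∀ h v w, inner ℂ (a h v) (a h w) = inner ℂ v w)
    (hb : ∀ h v w, inner ℂ (b h v) (b h w) = inner ℂ v w)
    (hab : ∀ h k v, a h (b k v) = b k (a h v))
    (R : V →ₗ[ℂ] V) (hR : ∀ v w, inner ℂ (R v) (R w) = inner ℂ v w)
    (htr : ∀ h, LinearMap.trace ℂ V R = LinearMap.trace ℂ V (a h * b h⁻¹ * R))
    (U : Submodule ℂ V) (haU : ∀ h, ∀ w ∈ U, a h w ∈ U) (hbU : ∀ h, ∀ w ∈ U, b h w ∈ U)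
    (q : ℝ) (hq : 0 < q)
    (hW : ∀ W : Submodule ℂ V, W ≤ Uᗮ → W ≠ ⊥ → (∀ h, ∀ w ∈ W, a h w ∈ W) →
      q ^ 4 ≤ finrank ℂ W) :
    ‖LinearMap.trace ℂ V R‖ ≤ finrank ℂ U + finrank ℂ V / q := by
  classical
  have hnorma : ∀ h v, ‖a h v‖ = ‖v‖ := by
    intro h v
    have : ‖a h v‖ ^ 2 = ‖v‖ ^ 2 := by
      rw [@norm_sq_eq_re_inner ℂ, @norm_sq_eq_re_inner ℂ, ha]
    exact (pow_left_inj₀ (norm_nonneg _) (norm_nonneg _) two_ne_zero).mp this
  have hnormb : ∀ h v, ‖b h v‖ = ‖v‖ := by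
    intro h v
    have : ‖b h v‖ ^ 2 = ‖v‖ ^ 2 := by
      rw [@norm_sq_eq_re_inner ℂ, @norm_sq_eq_re_inner ℂ, hb]
    exact (pow_left_inj₀ (norm_nonneg _) (norm_nonneg _) two_ne_zero).mp this
  have hnormR : ∀ v, ‖R v‖ = ‖v‖ := by
    intro v
    have : ‖R v‖ ^ 2 = ‖v‖ ^ 2 := by
      rw [@norm_sq_eq_re_inner ℂ, @norm_sq_eq_re_inner ℂ, hR]
    exact (pow_left_inj₀ (norm_nonneg _) (norm_nonneg _) two_ne_zero).mp this
  have haa : ∀ h x y, inner ℂ (a h x) y = inner ℂ x (a h⁻¹ y) := by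
    intro h x y
    rw [← ha h x (a h⁻¹ y), ← Module.End.mul_apply, ← map_mul, mul_inv_cancel, map_one,
      Module.End.one_apply]
  have hbb : ∀ h x y, inner ℂ (b h x) y = inner ℂ x (b h⁻¹ y) := by
    intro h x y
    rw [← hb h x (b h⁻¹ y), ← Module.End.mul_apply, ← map_mul, mul_inv_cancel, map_one,
      Module.End.one_apply]
  let K : V →ₗ[ℂ] V := ∑ h : H, a h * b h⁻¹
  have hKd : ∀ v, K v = ∑ h : H, a h (b h⁻¹ v) := by
    intro v
    simp only [K, LinearMap.sum_apply, Module.End.mul_apply]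
  have hK : K.IsSymmetric := by
    intro x y
    rw [hKd, hKd, sum_inner, inner_sum]
    rw [← Equiv.sum_comp (Equiv.inv H)]
    refine Finset.sum_congr rfl fun h _ => ?_
    simp only [Equiv.inv_apply, inv_inv]
    rw [haa, hbb, inv_inv, hab]
  have haU' : ∀ h, ∀ w ∈ Uᗮ, a h w ∈ Uᗮ := by
    intro h w hw
    rw [Submodule.mem_orthogonal'] at hw ⊢
    intro u hu
    rw [haa]
    exact hw _ (haU _ _ hu)
  have hbU' : ∀ h, ∀ w ∈ Uᗮ, b h w ∈ Uᗮ := by
    intro h w hw
    rw [Submodule.mem_orthogonal'] at hw ⊢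
    intro u hu
    rw [hbb]
    exact hw _ (hbU _ _ hu)
  -- bound on U⊥
  have hKperp : ∀ v ∈ Uᗮ, ‖K v‖ ≤ (Fintype.card H : ℝ) * ‖v‖ / q := by
    intro v hv
    have := avg_bound (restr a Uᗮ haU') (restr b Uᗮ hbU')
      (fun h v w => by
        rw [Submodule.coe_inner, Submodule.coe_inner, restr_coe, restr_coe, ha])
      (fun h v w => by
        rw [Submodule.coe_inner, Submodule.coe_inner, restr_coe, restr_coe, hb])
      (fun h k v => by
        apply Subtype.ext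
        rw [restr_coe, restr_coe, restr_coe, restr_coe, hab])
      q hq
      (fun W hW0 hWa => by
        have h1 := hW (W.map (Uᗮ).subtype) (Submodule.map_subtype_le _ _)
          (by
            intro hbot
            apply hW0
            apply Submodule.map_injective_of_injective (Submodule.injective_subtype (Uᗮ))
            rw [hbot, Submodule.map_bot])
          (by
            rintro h w ⟨x, hx, rfl⟩
            exact ⟨restr a Uᗮ haU' h x, hWa h x hx, rfl⟩)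
        rwa [Submodule.finrank_map_subtype_eq] at h1)
      ⟨v, hv⟩
    rw [hKd]
    have h2 : ‖∑ h : H, (restr a Uᗮ haU' h) ((restr b Uᗮ hbU' h⁻¹) ⟨v, hv⟩)‖ =
        ‖∑ h : H, a h (b h⁻¹ v)‖ := by
      change ‖((∑ h : H, (restr a Uᗮ haU' h) ((restr b Uᗮ hbU' h⁻¹) ⟨v, hv⟩) : Uᗮ) : V)‖ = _
      rw [Submodule.coe_sum]
      rfl
    rw [← h2]
    exact this
  have hKall : ∀ v, ‖K v‖ ≤ (Fintype.card H : ℝ) * ‖v‖ := by
    intro v
    rw [hKd]
    refine (norm_sum_le _ _).trans ?_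
    simp only [hnorma, hnormb, Finset.sum_const, Finset.card_univ, nsmul_eq_mul]
    exact le_rfl
  -- trace
  have htrK : (Fintype.card H : ℂ) * LinearMap.trace ℂ V R = LinearMap.trace ℂ V (K * R) := by
    simp only [K, Finset.sum_mul, map_sum, ← htr, Finset.sum_const, Finset.card_univ,
      nsmul_eq_mul]
  -- adapted orthonormal basis
  let bU := stdOrthonormalBasis ℂ U
  let bW := stdOrthonormalBasis ℂ Uᗮ
  let f : Fin (finrank ℂ U) ⊕ Fin (finrank ℂ Uᗮ) → V :=
    Sum.elim (fun i => (bU i : V)) (fun i => (bW i : V))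
  have hf : Orthonormal ℂ f := by
    rw [orthonormal_iff_ite]
    rintro (i | i) (j | j)
    · have := (orthonormal_iff_ite.mp bU.orthonormal) i j
      simp only [f, Sum.elim_inl, Sum.inl.injEq]
      rw [← this]
      rfl
    · simp only [f, Sum.elim_inl, Sum.elim_inr, reduceCtorEq, if_false]
      exact Submodule.inner_right_of_mem_orthogonal (bU i).2 (bW j).2
    · simp only [f, Sum.elim_inl, Sum.elim_inr, reduceCtorEq, if_false]
      exact Submodule.inner_left_of_mem_orthogonal (bU j).2 (bW i).2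
    · have := (orthonormal_iff_ite.mp bW.orthonormal) i j
      simp only [f, Sum.elim_inr, Sum.inr.injEq]
      rw [← this]
      rfl
  have hfr := Submodule.finrank_add_finrank_orthogonal U
  have hcard : Fintype.card (Fin (finrank ℂ U) ⊕ Fin (finrank ℂ Uᗮ)) = finrank ℂ V := by
    simp [hfr]
  let B : OrthonormalBasis (Fin (finrank ℂ U) ⊕ Fin (finrank ℂ Uᗮ)) ℂ V :=
    OrthonormalBasis.mk hf (hf.linearIndependent.span_eq_top_of_card_eq_finrank' hcard).ge
  have hB : ∀ i, B i = f i := fun i => by simp [B]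
  have hcpos : (0 : ℝ) < Fintype.card H := by exact_mod_cast Fintype.card_pos
  have hmain : ‖LinearMap.trace ℂ V (K * R)‖ ≤
      (Fintype.card H : ℝ) * (finrank ℂ U + finrank ℂ V / q) := by
    rw [LinearMap.trace_eq_sum_inner _ B]
    refine (norm_sum_le _ _).trans ?_
    have h1 : ∀ i, ‖inner ℂ (B i) ((K * R) (B i))‖ ≤ ‖K (f i)‖ := by
      intro i
      rw [Module.End.mul_apply, ← hK]
      refine (norm_inner_le_norm _ _).trans ?_
      rw [hnormR, B.norm_eq_one, mul_one, hB]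
    refine (Finset.sum_le_sum fun i _ => h1 i).trans ?_
    rw [Fintype.sum_sum_type]
    have h2 : ∑ i : Fin (finrank ℂ U), ‖K (f (Sum.inl i))‖ ≤ (Fintype.card H : ℝ) * finrank ℂ U := by
      calc ∑ i : Fin (finrank ℂ U), ‖K (f (Sum.inl i))‖
          ≤ ∑ i : Fin (finrank ℂ U), (Fintype.card H : ℝ) := by
            refine Finset.sum_le_sum fun i _ => ?_
            have := hKall (f (Sum.inl i))
            rwa [hf.1, mul_one] at this
        _ = _ := by simp [mul_comm]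
    have h3 : ∑ i : Fin (finrank ℂ Uᗮ), ‖K (f (Sum.inr i))‖ ≤
        (Fintype.card H : ℝ) * (finrank ℂ Uᗮ / q) := by
      calc ∑ i : Fin (finrank ℂ Uᗮ), ‖K (f (Sum.inr i))‖
          ≤ ∑ i : Fin (finrank ℂ Uᗮ), (Fintype.card H : ℝ) / q := by
            refine Finset.sum_le_sum fun i _ => ?_
            have := hKperp (f (Sum.inr i)) (bW i).2
            rwa [hf.1, mul_one] at this
        _ = _ := by
          simp only [Finset.sum_const, Finset.card_univ, Fintype.card_fin, nsmul_eq_mul]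
          ring
    have h4 : (finrank ℂ Uᗮ : ℝ) ≤ finrank ℂ V := by
      exact_mod_cast Submodule.finrank_le _
    calc _ ≤ (Fintype.card H : ℝ) * finrank ℂ U + (Fintype.card H : ℝ) * (finrank ℂ Uᗮ / q) :=
          add_le_add h2 h3
      _ ≤ (Fintype.card H : ℝ) * finrank ℂ U + (Fintype.card H : ℝ) * (finrank ℂ V / q) := by
          gcongr
      _ = _ := by ring
  rw [← htrK, norm_mul, Complex.norm_natCast] at hmain
  exact le_of_mul_le_mul_left hmain hcpos

open Equiv in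
/-- Even permutations supported in `T`. -/
def altOn {n : ℕ} (T : Finset (Fin n)) : Subgroup (Perm (Fin n)) where
  carrier := {σ | Perm.sign σ = 1 ∧ ∀ x, x ∉ T → σ x = x}
  mul_mem' := by
    rintro σ τ ⟨h1, h2⟩ ⟨h3, h4⟩
    refine ⟨by rw [map_mul, h1, h3, mul_one], fun x hx => ?_⟩
    rw [Perm.mul_apply, h4 x hx, h2 x hx]
  one_mem' := ⟨by simp, fun x _ => rfl⟩
  inv_mem' := by
    rintro σ ⟨h1, h2⟩
    refine ⟨by rw [Perm.sign_inv, h1], fun x hx => ?_⟩
    rw [Perm.inv_eq_iff_eq, h2 x hx]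

theorem k_trick {n : ℕ} {V : Type} [NormedAddCommGroup V] [InnerProductSpace ℂ V]
    [FiniteDimensional ℂ V] (ρ : Equiv.Perm (Fin n) →* (V →ₗ[ℂ] V))
    (hu : ∀ σ v w, inner ℂ (ρ σ v) (ρ σ w) = inner ℂ v w)
    (g : Equiv.Perm (Fin n)) (T : Finset (Fin n)) (hT : ∀ x ∈ T, g x ∉ T)
    (U : Submodule ℂ V)
    (hUT : ∀ σ : Equiv.Perm (Fin n), Equiv.Perm.sign σ = 1 → (∀ x, x ∉ T → σ x = x) →
      ∀ u ∈ U, ρ σ u ∈ U)
    (hUgT : ∀ σ : Equiv.Perm (Fin n), Equiv.Perm.sign σ = 1 → (∀ x ∈ T, σ x = x) →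
      ∀ u ∈ U, ρ σ u ∈ U)
    (q : ℝ) (hq : 0 < q)
    (hW : ∀ W : Submodule ℂ V, W ≤ Uᗮ → W ≠ ⊥ →
      (∀ σ : Equiv.Perm (Fin n), Equiv.Perm.sign σ = 1 → (∀ x, x ∉ T → σ x = x) →
        ∀ w ∈ W, ρ σ w ∈ W) → q ^ 4 ≤ finrank ℂ W) :
    ‖LinearMap.trace ℂ V (ρ g)‖ ≤ finrank ℂ U + finrank ℂ V / q := by
  classical
  have hgfix : ∀ h ∈ altOn T, ∀ x ∈ T, (g * h * g⁻¹) x = x := by
    rintro h ⟨_, h2⟩ x hx
    have h3 : g⁻¹ x ∉ T := by
      intro h4
      apply hT _ h4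
      simpa using hx
    rw [Equiv.Perm.mul_apply, Equiv.Perm.mul_apply, h2 _ h3]
    simp
  have hcomm : ∀ h ∈ altOn T, ∀ k ∈ altOn T, h * (g * k * g⁻¹) = (g * k * g⁻¹) * h := by
    intro h hh k hk
    have hd : Equiv.Perm.Disjoint h (g * k * g⁻¹) := by
      intro x
      by_cases hx : x ∈ T
      · right
        exact hgfix k hk x hx
      · left
        exact hh.2 x hx
    exact hd.commute
  let a : altOn T →* (V →ₗ[ℂ] V) := ρ.comp (altOn T).subtype
  let b : altOn T →* (V →ₗ[ℂ] V) :=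
    ρ.comp ((MulAut.conj g).toMonoidHom.comp (altOn T).subtype)
  have had : ∀ h, a h = ρ (h : Equiv.Perm (Fin n)) := fun h => rfl
  have hbd : ∀ h, b h = ρ (g * (h : Equiv.Perm (Fin n)) * g⁻¹) := fun h => rfl
  refine k_trick_abs a b (fun h v w => hu _ v w) (fun h v w => hu _ v w) ?_ (ρ g) (hu g) ?_ U
    ?_ ?_ q hq ?_
  · intro h k v
    rw [had, hbd, ← Module.End.mul_apply, ← Module.End.mul_apply, ← map_mul, ← map_mul,
      hcomm h h.2 k k.2]
  · intro h
    rw [had, hbd, ← map_mul, ← map_mul]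
    have h1 : (h : Equiv.Perm (Fin n)) * (g * ((h⁻¹ : altOn T) : Equiv.Perm (Fin n)) * g⁻¹) * g =
        (h : Equiv.Perm (Fin n)) * (g * (h : Equiv.Perm (Fin n))⁻¹) := by
      simp [mul_assoc]
    rw [h1, map_mul, LinearMap.trace_mul_comm, ← map_mul]
    simp [mul_assoc]
  · intro h w hw
    exact hUT h h.2.1 h.2.2 w hw
  · intro h w hw
    refine hUgT _ ?_ (hgfix h h.2) w hw
    rw [map_mul, map_mul, h.2.1]
    simp
  · intro W hW1 hW2 hW3
    exact hW W hW1 hW2 (fun σ h1 h2 w hw => hW3 ⟨σ, h1, h2⟩ w hw)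

end Pool.Agent.Helper51.KT
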