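import Pool.Agent.Helper51.Hilbert

open RingTheory.Sequence Pointwise MvPolynomial

namespace Pool.Agent.Helper51

section HilbertList

variable {K : Type*} [Field K] {ι : Type*} [Fintype ι] (w : ι → ℕ)

/-- The Hilbert series of the quotient by `J`. -/
noncomputable def hilb (J : Ideal (MvPolynomial ι K)) : PowerSeries ℤ :=
  PowerSeries.mk (hfun w J)

lemma hilb_sup (hw : ∀ k, w k ≠ 0) {J : Ideal (MvPolynomial ι K)} (hJ : HomIdeal w J)
    {f : MvPolynomial ι K} {m : ℕ} (hf : IsWeightedHomogeneous w f m)
    (hreg : ∀ p, f * p ∈ J → p ∈ J) :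
    hilb w (J ⊔ Ideal.span {f}) = hilb w J * (1 - PowerSeries.X ^ m) := by
  ext d
  rw [mul_sub, mul_one, map_sub, PowerSeries.coeff_mul_X_pow']
  simp only [hilb, PowerSeries.coeff_mk]
  exact hfun_sup w hw hJ hf hreg d

omit [Fintype ι] in
lemma homIdeal_bot : HomIdeal w (⊥ : Ideal (MvPolynomial ι K)) := by
  intro p hp d
  rw [Ideal.mem_bot] at hp
  rw [hp, map_zero]
  exact Ideal.zero_mem _

lemma hilb_list (hw : ∀ k, w k ≠ 0) (l : List (MvPolynomial ι K × ℕ))
    (hl : ∀ p ∈ l, IsWeightedHomogeneous w p.1 p.2)
    (hreg : IsWeaklyRegular (MvPolynomial ι K) (l.map Prod.fst)) :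
    HomIdeal w (Ideal.ofList (l.map Prod.fst)) ∧
    hilb w (Ideal.ofList (l.map Prod.fst)) =
      hilb w (⊥ : Ideal (MvPolynomial ι K)) *
        (l.map (fun p => (1 - PowerSeries.X ^ p.2 : PowerSeries ℤ))).prod := by
  induction l using List.reverseRecOn with
  | nil =>
    simp only [List.map_nil, Ideal.ofList_nil, List.prod_nil, mul_one, and_true]
    exact homIdeal_bot w
  | append_singleton l p ih =>
    rw [List.map_append, isWeaklyRegular_append_iff, List.map_singleton,
      isWeaklyRegular_cons_iff] at hreg
    obtain ⟨h1, h2, -⟩ := hreg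
    obtain ⟨ihJ, ihH⟩ := ih (fun q hq => hl q (by simp [hq])) h1
    have hp : IsWeightedHomogeneous w p.1 p.2 := hl p (by simp)
    have hideal : Ideal.ofList ((l ++ [p]).map Prod.fst) =
        Ideal.ofList (l.map Prod.fst) ⊔ Ideal.span {p.1} := by
      rw [List.map_append, Ideal.ofList_append, List.map_singleton, Ideal.ofList_singleton]
    rw [hideal]
    refine ⟨homIdeal_sup w ihJ hp, ?_⟩
    rw [hilb_sup w hw ihJ hp, ihH, List.map_append, List.prod_append, List.map_singleton,
      List.prod_singleton, mul_assoc]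
    intro q hq
    rw [isSMulRegular_iff_right_eq_zero_of_smul] at h2
    have h3 := h2 (Submodule.Quotient.mk q) (by
      rw [← Submodule.Quotient.mk_smul, Submodule.Quotient.mk_eq_zero]
      simpa using hq)
    rw [Submodule.Quotient.mk_eq_zero] at h3
    simpa using h3

lemma hilb_vars (hw : ∀ k, w k ≠ 0) :
    hilb w (Ideal.span ((X : ι → MvPolynomial ι K) '' Set.univ)) = 1 := by
  classical
  ext d
  rw [PowerSeries.coeff_one]
  simp only [hilb, PowerSeries.coeff_mk, hfun]
  by_cases hd : d = 0
  · subst hd
    rw [if_pos rfl]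
    have hC : ∀ p ∈ weightedHomogeneousSubmodule K w 0, p = C (coeff 0 p) := by
      intro p hp
      rw [mem_weightedHomogeneousSubmodule] at hp
      ext e
      rw [coeff_C]
      by_cases he : 0 = e
      · rw [if_pos he, he]
      · rw [if_neg he]
        by_contra hne
        have h1 := hp hne
        rw [Finsupp.weight_apply] at h1
        obtain ⟨i, hi⟩ : ∃ i, e i ≠ 0 := by
          by_contra hcon
          push Not at hcon
          exact he (by ext i; simp [hcon i])
        have h2 : e i • w i ≤ e.sum (fun i c => c • w i) :=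
          Finset.single_le_sum (f := fun i => e i • w i) (fun _ _ => Nat.zero_le _)
            (Finsupp.mem_support_iff.mpr hi)
        rw [h1] at h2
        have h3 : 0 < e i * w i := Nat.mul_pos (Nat.pos_of_ne_zero hi) (Nat.pos_of_ne_zero (hw i))
        simp only [smul_eq_mul] at h2
        omega
    have hV : weightedHomogeneousSubmodule K w 0 = Submodule.span K {(1 : MvPolynomial ι K)} := by
      ext p
      rw [Submodule.mem_span_singleton]
      constructor
      · intro hp
        exact ⟨coeff 0 p, by rw [hC p hp]; simp [smul_eq_C_mul]⟩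
      · rintro ⟨c, rfl⟩
        exact Submodule.smul_mem _ _ (isWeightedHomogeneous_one K w)
    have h1 : Module.finrank K (weightedHomogeneousSubmodule K w 0) = 1 := by
      rw [hV]; exact finrank_span_singleton one_ne_zero
    have h2 : ((Ideal.span ((X : ι → MvPolynomial ι K) '' Set.univ)).restrictScalars K ⊓
        weightedHomogeneousSubmodule K w 0 : Submodule K (MvPolynomial ι K)) = ⊥ := by
      rw [eq_bot_iff]
      rintro p ⟨hp1, hp2⟩
      rw [Submodule.mem_bot]
      have hp3 : p ∈ Ideal.span ((X : ι → MvPolynomial ι K) '' Set.univ) := hp1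
      rw [mem_ideal_span_X_image] at hp3
      rw [hC p hp2]
      have : coeff 0 p = 0 := by
        by_contra hne
        obtain ⟨i, _, hi⟩ := hp3 0 (mem_support_iff.mpr hne)
        exact hi rfl
      rw [this, C_0]
    rw [h1, h2, finrank_bot]
    simp
  · rw [if_neg hd]
    have h2 : ((Ideal.span ((X : ι → MvPolynomial ι K) '' Set.univ)).restrictScalars K ⊓
        weightedHomogeneousSubmodule K w d : Submodule K (MvPolynomial ι K)) =
        weightedHomogeneousSubmodule K w d := by
      rw [inf_eq_right]
      intro p hp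
      rw [mem_weightedHomogeneousSubmodule] at hp
      change p ∈ Ideal.span ((X : ι → MvPolynomial ι K) '' Set.univ)
      rw [mem_ideal_span_X_image]
      intro e he
      have h1 := hp (mem_support_iff.mp he)
      by_contra hcon
      push Not at hcon
      have h3 : e = 0 := by ext i; exact hcon i (Set.mem_univ _)
      rw [h3, map_zero] at h1
      exact hd h1.symm
    rw [h2, sub_self]

lemma hilb_bot (hw : ∀ k, w k ≠ 0) :
    hilb w (⊥ : Ideal (MvPolynomial ι K)) * ∏ k, (1 - PowerSeries.X ^ w k : PowerSeries ℤ) = 1 := by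
  classical
  have h1 := hilb_list (K := K) w hw
    ((Finset.univ : Finset ι).toList.map (fun k => ((X k : MvPolynomial ι K), w k))) (by
      intro p hp
      rw [List.mem_map] at hp
      obtain ⟨k, _, rfl⟩ := hp
      exact isWeightedHomogeneous_X K w k) (by
      rw [List.map_map]
      exact isWeaklyRegular_X _ (Finset.nodup_toList _))
  have h2 := h1.2
  have h3 : Ideal.ofList (((Finset.univ : Finset ι).toList.map
      (fun k => ((X k : MvPolynomial ι K), w k))).map Prod.fst) =
      Ideal.span ((X : ι → MvPolynomial ι K) '' Set.univ) := by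
    unfold Ideal.ofList
    congr 1
    ext p
    simp
  rw [h3, hilb_vars w hw] at h2
  refine Eq.trans ?_ h2.symm
  congr 1
  rw [List.map_map]
  exact (Finset.prod_map_toList Finset.univ
    (fun k => (1 - PowerSeries.X ^ w k : PowerSeries ℤ))).symm

/-- Hilbert series identity for a weakly regular sequence of weighted homogeneous elements. -/
theorem hilb_identity (hw : ∀ k, w k ≠ 0) {r : ℕ} (F : Fin r → MvPolynomial ι K) (m : Fin r → ℕ)
    (hF : ∀ i, IsWeightedHomogeneous w (F i) (m i))
    (hreg : IsWeaklyRegular (MvPolynomial ι K) (List.ofFn F)) :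
    hilb w (Ideal.ofList (List.ofFn F)) * ∏ k, (1 - PowerSeries.X ^ w k : PowerSeries ℤ) =
      ∏ i, (1 - PowerSeries.X ^ m i : PowerSeries ℤ) := by
  have hmap : (List.ofFn (fun i => (F i, m i))).map Prod.fst = List.ofFn F := by
    rw [List.map_ofFn]; rfl
  have h1 := hilb_list (K := K) w hw (List.ofFn (fun i => (F i, m i))) (by
      intro p hp
      rw [List.mem_ofFn] at hp
      obtain ⟨i, rfl⟩ := hp
      exact hF i) (by rw [hmap]; exact hreg)
  have h2 := h1.2
  rw [hmap, List.map_ofFn, List.prod_ofFn] at h2
  rw [h2]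
  have h3 := hilb_bot (K := K) w hw
  calc _ = (hilb w (⊥ : Ideal (MvPolynomial ι K)) *
        ∏ k, (1 - PowerSeries.X ^ w k : PowerSeries ℤ)) *
        ∏ i, (1 - PowerSeries.X ^ m i : PowerSeries ℤ) := by
          simp only [Function.comp]
          ring
    _ = _ := by rw [h3, one_mul]

end HilbertList

end Pool.Agent.Helper51
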