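import Pool.Agent.Helper51.GenericCI
import Pool.Agent.Helper51.HilbertList
import Mathlib.RingTheory.MvPolynomial.Localization
import Mathlib.RingTheory.Localization.FractionRing

open RingTheory.Sequence Pointwise MvPolynomial

namespace Pool.Agent.Helper51

section BaseChange

variable {ι : Type} [Fintype ι] [DecidableEq ι] {r L : ℕ}

/-- the coefficient ring -/
abbrev CRing (ι : Type) (r L : ℕ) := MvPolynomial (Fin r × (ι → Fin L)) ℚ

/-- the field of rational functions in the coefficient variables -/
abbrev CField (ι : Type) (r L : ℕ) := FractionRing (CRing ι r L)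

/-- The generic polynomial over the field of rational functions. -/
noncomputable def genK (w : ι → ℕ) (m : Fin r → ℕ) (i : Fin r) :
    MvPolynomial ι (CField ι r L) :=
  ∑ a ∈ Finset.univ.filter (fun a : ι → Fin L => wt w a = m i),
    C (algebraMap (CRing ι r L) (CField ι r L) (X (i, a))) * ∏ k, X k ^ (a k : ℕ)

lemma genK_isWeightedHomogeneous (w : ι → ℕ) (m : Fin r → ℕ) (i : Fin r) :
    IsWeightedHomogeneous w (genK (L := L) w m i) (m i) := by
  unfold genK
  apply IsWeightedHomogeneous.sum
  intro a ha
  have hwt : wt w a = m i := by simpa using ha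
  have h1 : IsWeightedHomogeneous w
      (∏ k, (X k : MvPolynomial ι (CField ι r L)) ^ (a k : ℕ)) (∑ k, (a k : ℕ) • w k) :=
    IsWeightedHomogeneous.prod Finset.univ _ _ (fun k _ => (isWeightedHomogeneous_X _ w k).pow _)
  have h2 : (∑ k, (a k : ℕ) • w k) = m i := by
    rw [← hwt]; simp [wt, smul_eq_mul]
  rw [h2] at h1
  exact h1.C_mul _

attribute [local instance] MvPolynomial.algebraMvPolynomial in
theorem genK_isWeaklyRegular (w : ι → ℕ) (m : Fin r → ℕ) (hr : r = Fintype.card ι)
    (hall : ∀ S : Finset ι, S.card ≤ (Finset.univ.filter (fun i : Fin r =>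
      ∃ a : ι → Fin L, wt w a = m i ∧ ∀ k ∉ S, (a k : ℕ) = 0)).card) :
    IsWeaklyRegular (MvPolynomial ι (CField ι r L))
      (List.ofFn (fun i => (genK w m i : MvPolynomial ι (CField ι r L)))) := by
  classical
  have h0 := gen_isWeaklyRegular w m hr hall
  let e := sumAlgEquiv ℚ ι (Fin r × (ι → Fin L))
  have h1 : IsWeaklyRegular (MvPolynomial ι (CRing ι r L))
      (List.ofFn (fun i => e (gen w m i))) := by
    refine (AddEquiv.isWeaklyRegular_congr (e := e.toRingEquiv.toAddEquiv) (M := GRing ι r L)
      (M₂ := MvPolynomial ι (CRing ι r L)) ?_).mp h0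
    rw [show (fun i => e (gen w m i)) = (fun x => e x) ∘ (fun i => gen w m i) from rfl,
      ← List.map_ofFn, List.forall₂_map_right_iff, List.forall₂_same]
    intro v _ x
    change e (v * x) = e v * e x
    exact map_mul e v x
  have h2 : IsWeaklyRegular (MvPolynomial ι (CField ι r L))
      ((List.ofFn (fun i => e (gen w m i))).map
        (algebraMap (MvPolynomial ι (CRing ι r L)) (MvPolynomial ι (CField ι r L)))) :=
    h1.of_isLocalization _ ((nonZeroDivisors (CRing ι r L)).map (C (σ := ι)))
  have h3 : (List.ofFn (fun i => e (gen w m i))).map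
        (algebraMap (MvPolynomial ι (CRing ι r L)) (MvPolynomial ι (CField ι r L))) =
      List.ofFn (fun i => (genK w m i : MvPolynomial ι (CField ι r L))) := by
    rw [List.map_ofFn]
    congr 1
    funext i
    simp only [Function.comp, gen, genK, xmon, e, map_sum, map_mul, map_prod, map_pow,
      sumAlgEquiv_X_inl, sumAlgEquiv_X_inr, MvPolynomial.algebraMap_def, map_X, map_C]
  rw [h3] at h2
  exact h2

end BaseChange

end Pool.Agent.Helper51
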