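import Mathlib.RingTheory.Depth.Rees
import Mathlib.RingTheory.Regular.Flat

open RingTheory.Sequence CategoryTheory Abelian Limits Pointwise ModuleCat

universe u

namespace Pool.Agent.Helper51

variable {R : Type u} [CommRing R]

/-- Ext vanishing from a weakly regular sequence killing `N`. -/
lemma ext_subsingleton_of_weaklyRegular (N : ModuleCat.{u} R) (rs : List R) :
    ∀ (M : ModuleCat.{u} R), IsWeaklyRegular M rs → (∀ r ∈ rs, r ∈ Module.annihilator R N) →
      ∀ i < rs.length, Subsingleton (Ext N M i) := by
  induction rs with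
  | nil => intro M _ _ i hi; simp at hi
  | cons a rs ih =>
    intro M reg mem i hi
    simp only [isWeaklyRegular_cons_iff] at reg
    simp only [List.mem_cons, forall_eq_or_imp] at mem
    match i with
    | 0 =>
      have : Subsingleton (N →ₗ[R] M) :=
        IsSMulRegular.linearMap_subsingleton_of_mem_annihilator reg.1 mem.1
      exact (Ext.addEquiv₀.trans ModuleCat.homAddEquiv).subsingleton
    | i + 1 =>
      let g := (AddCommGrpCat.ofHom ((Ext.mk₀ (smulShortComplex M a).f).postcomp N
        (add_zero (i + 1))))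
      have hlen : i < rs.length := by simpa using hi
      have mono_g : Mono g := by
        apply (Ext.covariant_sequence_exact₁' N reg.1.smulShortComplex_shortExact i (i + 1)
          rfl).mono_g ((AddCommGrpCat.isZero_of_iff_subsingleton.mpr ?_).eq_zero_of_src _)
        exact ih (ModuleCat.of R (QuotSMulTop a M)) reg.2 mem.2 i hlen
      have zero_g : g = 0 := Ext.postcomp_smul_id_eq_zero_of_mem_annihilator mem.1 (i + 1)
      exact AddCommGrpCat.subsingleton_of_isZero (IsZero.of_mono_eq_zero _ zero_g)

/-- If `Ext N M i = 0` for `i < s` and `fs` is a weakly `M`-regular sequence of length `< s`,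
then `Hom(N, M / (fs) M) = 0`. -/
lemma hom_subsingleton_of_ext (N : ModuleCat.{u} R) (fs : List R) :
    ∀ (M : ModuleCat.{u} R) (s : ℕ), (∀ i < s, Subsingleton (Ext N M i)) →
      IsWeaklyRegular M fs → fs.length < s →
      Subsingleton (N →ₗ[R] (M ⧸ (Ideal.ofList fs • ⊤ : Submodule R M))) := by
  induction fs with
  | nil =>
    intro M s hs _ hlen
    have h0 : Subsingleton (Ext N M 0) := hs 0 (by simpa using hlen)
    have h1 : Subsingleton (N ⟶ M) := Ext.addEquiv₀.symm.subsingleton
    have h2 : Subsingleton (N →ₗ[R] M) := ModuleCat.homAddEquiv.symm.subsingleton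
    have hbot : (Ideal.ofList ([] : List R) • ⊤ : Submodule R M) = ⊥ := by simp
    let e : (M ⧸ (Ideal.ofList ([] : List R) • ⊤ : Submodule R M)) ≃ₗ[R] M :=
      Submodule.quotEquivOfEqBot _ hbot
    refine ⟨fun f g => ?_⟩
    have : e.toLinearMap ∘ₗ f = e.toLinearMap ∘ₗ g := Subsingleton.elim _ _
    ext x
    have := LinearMap.congr_fun this x
    exact e.injective this
  | cons a fs ih =>
    intro M s hs reg hlen
    simp only [isWeaklyRegular_cons_iff] at reg
    obtain ⟨s, rfl⟩ : ∃ t, s = t + 1 := ⟨s - 1, by simp at hlen; omega⟩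
    have hlen' : fs.length < s := by simpa using hlen
    have hs' : ∀ i < s, Subsingleton (Ext N (ModuleCat.of R (QuotSMulTop a M)) i) := by
      intro i hi
      have zero1 := AddCommGrpCat.isZero_of_iff_subsingleton.mpr (hs i (by omega))
      have zero2 := AddCommGrpCat.isZero_of_iff_subsingleton.mpr (hs (i + 1) (by omega))
      exact AddCommGrpCat.subsingleton_of_isZero <| ShortComplex.Exact.isZero_of_both_zeros
        ((Ext.covariant_sequence_exact₃' N reg.1.smulShortComplex_shortExact) i (i + 1) rfl)
        (zero1.eq_zero_of_src _) (zero2.eq_zero_of_tgt _)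
    have key := ih (ModuleCat.of R (QuotSMulTop a M)) s hs' reg.2 hlen'
    let e := Submodule.quotOfListConsSMulTopEquivQuotSMulTopInner M a fs
    refine ⟨fun f g => ?_⟩
    have : e.toLinearMap ∘ₗ f = e.toLinearMap ∘ₗ g := by
      have := key
      exact Subsingleton.elim (α := N →ₗ[R] (QuotSMulTop a M ⧸
        (Ideal.ofList fs • ⊤ : Submodule R (QuotSMulTop a M)))) _ _
    ext x
    have := LinearMap.congr_fun this x
    exact e.injective this

/-- A module killed by a weakly `M`-regular sequence `ys` has no nonzero map to `M / (fs) M`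
when `fs` is a shorter weakly `M`-regular sequence. -/
theorem linearMap_eq_zero {N M : Type u} [AddCommGroup N] [Module R N] [AddCommGroup M]
    [Module R M] (ys fs : List R) (hy : IsWeaklyRegular M ys)
    (hyN : ∀ y ∈ ys, y ∈ Module.annihilator R N)
    (hf : IsWeaklyRegular M fs) (hlen : fs.length < ys.length)
    (φ : N →ₗ[R] (M ⧸ (Ideal.ofList fs • ⊤ : Submodule R M))) : φ = 0 := by
  have h1 := ext_subsingleton_of_weaklyRegular (ModuleCat.of R N) ys (ModuleCat.of R M) hy hyN
  have h2 := hom_subsingleton_of_ext (ModuleCat.of R N) fs (ModuleCat.of R M) ys.length h1 hf hlen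
  exact Subsingleton.elim (α := N →ₗ[R] (M ⧸ (Ideal.ofList fs • ⊤ : Submodule R M))) _ _

end Pool.Agent.Helper51
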