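import Mathlib.Tactic.Linarith
import Mathlib.Tactic.IntervalCases
import Mathlib.Tactic.Ring
import Mathlib.Data.Int.Interval
import Mathlib.Algebra.Order.Group.Unbundled.Int

namespace Pool.Agent.Helper51

/-- The floor combination governing one residue class. -/
def phi (n a v : ℕ) : ℤ :=
  (((15 * n - v) / a : ℕ) : ℤ) - (((10 * n - v) / a : ℕ) : ℤ) - (((4 * n - v) / a : ℕ) : ℤ) +
    (((2 * n - v) / a : ℕ) : ℤ) - (((3 * n - v) / a : ℕ) : ℤ)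

lemma aux_ge (a Z c : ℤ) (ha : 0 < a) (h : (c - 1) * a < a * Z) : c ≤ Z := by
  by_contra hcon
  push Not at hcon
  have h1 : Z ≤ c - 1 := by omega
  have h2 : a * Z ≤ a * (c - 1) := mul_le_mul_of_nonneg_left h1 ha.le
  linarith [mul_comm a (c - 1)]

/-- division data -/
lemma div_data (x a : ℕ) (ha : 0 < a) :
    ∃ p : ℤ, (x : ℤ) = a * ((x / a : ℕ) : ℤ) + p ∧ 0 ≤ p ∧ p < a ∧ p ≤ x := by
  refine ⟨((x % a : ℕ) : ℤ), ?_, by positivity, by exact_mod_cast Nat.mod_lt x ha,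
    by exact_mod_cast Nat.mod_le x a⟩
  have := Nat.div_add_mod x a
  exact_mod_cast this.symm

lemma phi_bounds (n a v : ℕ) (ha : 0 < a) (han : a ≤ 4 * n) (hv : 1 ≤ v) :
    -1 ≤ phi n a v ∧ ((a ≤ v ∨ 2 * n < v) → 0 ≤ phi n a v) ∧
      (2 * n < v → v ≤ 10 * n → a ≤ 2 * n → 1 ≤ phi n a v) := by
  obtain ⟨p15, e15, l15, u15, t15⟩ := div_data (15 * n - v) a ha
  obtain ⟨p10, e10, l10, u10, t10⟩ := div_data (10 * n - v) a ha
  obtain ⟨p4, e4, l4, u4, t4⟩ := div_data (4 * n - v) a ha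
  obtain ⟨p2, e2, l2, u2, t2⟩ := div_data (2 * n - v) a ha
  obtain ⟨p3, e3, l3, u3, t3⟩ := div_data (3 * n - v) a ha
  have ha' : (0 : ℤ) < a := by exact_mod_cast ha
  have hmul : (a : ℤ) * phi n a v = ((15 * n - v : ℕ) : ℤ) - ((10 * n - v : ℕ) : ℤ)
      - ((4 * n - v : ℕ) : ℤ) + ((2 * n - v : ℕ) : ℤ) - ((3 * n - v : ℕ) : ℤ)
      - p15 + p10 + p4 - p2 + p3 := by
    rw [e15, e10, e4, e2, e3]
    unfold phi
    ring
  have han' : (a : ℤ) ≤ 4 * n := by exact_mod_cast han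
  refine ⟨?_, ?_, ?_⟩
  · apply aux_ge _ _ _ ha'
    rw [hmul]
    omega
  · intro h
    apply aux_ge _ _ _ ha'
    rw [hmul]
    omega
  · intro h1 h2 h3
    apply aux_ge _ _ _ ha'
    rw [hmul]
    omega

lemma lt_of_mul_le {a z x c : ℤ} (ha : 0 < a) (h : a * z ≤ x) (hx : x < a * c) : z < c := by
  by_contra hcon
  push Not at hcon
  have := mul_le_mul_of_nonneg_left hcon ha.le
  omega

lemma ge_of_lt_mul {a z x c : ℤ} (ha : 0 < a) (h : x < a * z + a) (hx : a * c ≤ x) : c ≤ z := by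
  by_contra hcon
  push Not at hcon
  have h1 : z + 1 ≤ c := hcon
  have := mul_le_mul_of_nonneg_left h1 ha.le
  rw [mul_add, mul_one] at this
  omega

lemma combos (a s r z2 z3 z4 z10 z15 : ℤ) (ha : 0 < a) (hs0 : 0 ≤ s) (hs : s < a) (hr0 : 0 ≤ r)
    (hr : r < a) (l2 : a * z2 ≤ 2 * s - r) (u2 : 2 * s - r < a * z2 + a)
    (l3 : a * z3 ≤ 3 * s - r) (u3 : 3 * s - r < a * z3 + a)
    (l4 : a * z4 ≤ 4 * s - r) (u4 : 4 * s - r < a * z4 + a)
    (l10 : a * z10 ≤ 10 * s - r) (u10 : 10 * s - r < a * z10 + a)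
    (l15 : a * z15 ≤ 15 * s - r) (u15 : 15 * s - r < a * z15 + a)
    (hE : z15 - z10 - z4 + z2 - z3 ≤ -1) :
    1 ≤ r ∧ ((z2 = -1 ∧ z3 = 0 ∧ z4 = 0 ∧ z10 = 0 ∧ z15 = 0) ∨
      (z2 = -1 ∧ z3 = 0 ∧ z4 = 0 ∧ z10 = 1 ∧ z15 = 1) ∨
      (z2 = 0 ∧ z3 = 1 ∧ z4 = 2 ∧ z10 = 5 ∧ z15 = 7)) := by
  have hE' : a * z15 - a * z10 - a * z4 + a * z2 - a * z3 ≤ -a := by
    have := mul_le_mul_of_nonneg_left hE ha.le
    have e : a * (z15 - z10 - z4 + z2 - z3) = a * z15 - a * z10 - a * z4 + a * z2 - a * z3 := by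
      ring
    rw [e] at this
    omega
  have b2 : z2 < 2 := lt_of_mul_le ha l2 (by omega)
  have c2 : -1 ≤ z2 := ge_of_lt_mul ha u2 (by omega)
  have b3 : z3 < 3 := lt_of_mul_le ha l3 (by omega)
  have c3 : -1 ≤ z3 := ge_of_lt_mul ha u3 (by omega)
  have b4 : z4 < 4 := lt_of_mul_le ha l4 (by omega)
  have c4 : -1 ≤ z4 := ge_of_lt_mul ha u4 (by omega)
  have b10 : z10 < 10 := lt_of_mul_le ha l10 (by omega)
  have c10 : -1 ≤ z10 := ge_of_lt_mul ha u10 (by omega)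
  have b15 : z15 < 15 := lt_of_mul_le ha l15 (by omega)
  have c15 : -1 ≤ z15 := ge_of_lt_mul ha u15 (by omega)
  interval_cases z2 <;> interval_cases z4 <;> first | (exfalso; omega) | skip
  all_goals interval_cases z3 <;> first | (exfalso; omega) | skip
  all_goals interval_cases z10 <;> first | (exfalso; omega) | skip
  all_goals interval_cases z15 <;> first | (exfalso; omega) | omega


lemma qdiv (n a v k q s : ℕ) (hn : n = q * a + s) (ha : 0 < a) (hv : v ≤ k * n) (z : ℤ)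
    (h1 : (a : ℤ) * z ≤ k * s - v) (h2 : (k : ℤ) * s - v < a * z + a) :
    (((k * n - v) / a : ℕ) : ℤ) = k * q + z := by
  have ha' : (0 : ℤ) < a := by exact_mod_cast ha
  rw [Int.natCast_div, Nat.cast_sub hv, hn]
  push_cast
  have e : (k : ℤ) * (q * a + s) - v = (k * s - v - a * z) + a * (k * q + z) := by ring
  rw [e, Int.add_mul_ediv_left _ _ ha'.ne', Int.ediv_eq_zero_of_lt (by omega) (by omega)]
  ring

lemma phi_eq (n a v q s : ℕ) (hn : n = q * a + s) (ha : 0 < a) (hv : v ≤ 2 * n)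
    (z2 z3 z4 z10 z15 : ℤ)
    (l2 : (a : ℤ) * z2 ≤ 2 * s - v) (u2 : (2 : ℤ) * s - v < a * z2 + a)
    (l3 : (a : ℤ) * z3 ≤ 3 * s - v) (u3 : (3 : ℤ) * s - v < a * z3 + a)
    (l4 : (a : ℤ) * z4 ≤ 4 * s - v) (u4 : (4 : ℤ) * s - v < a * z4 + a)
    (l10 : (a : ℤ) * z10 ≤ 10 * s - v) (u10 : (10 : ℤ) * s - v < a * z10 + a)
    (l15 : (a : ℤ) * z15 ≤ 15 * s - v) (u15 : (15 : ℤ) * s - v < a * z15 + a) :
    phi n a v = z15 - z10 - z4 + z2 - z3 := by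
  unfold phi
  rw [qdiv n a v 15 q s hn ha (by omega) z15 (by push_cast; exact l15) (by push_cast; exact u15),
    qdiv n a v 10 q s hn ha (by omega) z10 (by push_cast; exact l10) (by push_cast; exact u10),
    qdiv n a v 4 q s hn ha (by omega) z4 (by push_cast; exact l4) (by push_cast; exact u4),
    qdiv n a v 2 q s hn ha (by omega) z2 (by push_cast; exact l2) (by push_cast; exact u2),
    qdiv n a v 3 q s hn ha (by omega) z3 (by push_cast; exact l3) (by push_cast; exact u3)]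
  push_cast
  ring

lemma phi_combos (n a v q s : ℕ) (hn : n = q * a + s) (ha : 0 < a) (hs : s < a)
    (hv : v ≤ 2 * n) (hva : v < a) (hneg : phi n a v < 0) :
    1 ≤ v ∧ ∃ z2 z3 z4 z10 z15 : ℤ,
    ((a : ℤ) * z2 ≤ 2 * s - v) ∧ ((2 : ℤ) * s - v < a * z2 + a) ∧
    ((a : ℤ) * z3 ≤ 3 * s - v) ∧ ((3 : ℤ) * s - v < a * z3 + a) ∧
    ((a : ℤ) * z4 ≤ 4 * s - v) ∧ ((4 : ℤ) * s - v < a * z4 + a) ∧
    ((a : ℤ) * z10 ≤ 10 * s - v) ∧ ((10 : ℤ) * s - v < a * z10 + a) ∧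
    ((a : ℤ) * z15 ≤ 15 * s - v) ∧ ((15 : ℤ) * s - v < a * z15 + a) ∧
    ((z2 = -1 ∧ z3 = 0 ∧ z4 = 0 ∧ z10 = 0 ∧ z15 = 0) ∨
      (z2 = -1 ∧ z3 = 0 ∧ z4 = 0 ∧ z10 = 1 ∧ z15 = 1) ∨
      (z2 = 0 ∧ z3 = 1 ∧ z4 = 2 ∧ z10 = 5 ∧ z15 = 7)) := by
  have ha' : (0 : ℤ) < a := by exact_mod_cast ha
  have l : ∀ x : ℤ, (a : ℤ) * (x / a) ≤ x := fun x => Int.mul_ediv_self_le ha'.ne'
  have u : ∀ x : ℤ, x < (a : ℤ) * (x / a) + a := fun x => by
    have := Int.lt_mul_ediv_self_add (x := x) ha'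
    exact this
  have he := phi_eq n a v q s hn ha hv _ _ _ _ _ (l _) (u _) (l _) (u _) (l _) (u _) (l _) (u _)
    (l _) (u _)
  have hc := combos (a : ℤ) s v _ _ _ _ _ ha' (by positivity) (by exact_mod_cast hs)
    (by positivity) (by exact_mod_cast hva) (l _) (u _) (l _) (u _) (l _) (u _) (l _) (u _)
    (l _) (u _) (by rw [← he]; omega)
  exact ⟨by exact_mod_cast hc.1, _, _, _, _, _, l _, u _, l _, u _, l _, u _, l _, u _, l _, u _,
    hc.2⟩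

/-- Landau's inequality for the parameters `15, 2 ; 10, 4, 3`. -/
lemma phi_zero (n a : ℕ) (ha : 0 < a) : 0 ≤ phi n a 0 := by
  by_contra hneg
  push Not at hneg
  have := phi_combos n a 0 (n / a) (n % a) (by rw [mul_comm]; exact (Nat.div_add_mod n a).symm) ha
    (Nat.mod_lt n ha) (by omega) ha hneg
  omega

/-- The compensation statement. -/
lemma phi_comp (n a r : ℕ) (ha : 0 < a) (han : a ≤ 4 * n) (hr : r < a) (hr2 : r ≤ 2 * n)
    (hneg : phi n a r < 0) :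
    a ≤ 2 * n ∧ (2 * (n % a) < a → 2 * r < a ∧ 1 ≤ phi n a (2 * r)) ∧
      (a ≤ 2 * (n % a) → 5 * r < a ∧ 1 ≤ phi n a (5 * r)) := by
  have hn : n = (n / a) * a + n % a := by rw [mul_comm]; exact (Nat.div_add_mod n a).symm
  have hs : n % a < a := Nat.mod_lt n ha
  generalize n / a = q at hn
  generalize n % a = s at hn hs ⊢
  obtain ⟨h1, z2, z3, z4, z10, z15, l2, u2, l3, u3, l4, u4, l10, u10, l15, u15, hc⟩ :=
    phi_combos n a r q s hn ha hs hr2 hr hneg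
  have han2 : a ≤ 2 * n := by
    rcases Nat.eq_zero_or_pos q with hq | hq
    · subst hq
      rw [zero_mul, zero_add] at hn
      subst hn
      rcases hc with ⟨rfl, rfl, rfl, rfl, rfl⟩ | ⟨rfl, rfl, rfl, rfl, rfl⟩ |
        ⟨rfl, rfl, rfl, rfl, rfl⟩ <;> omega
    · have : a ≤ q * a := Nat.le_mul_of_pos_left a hq
      omega
  refine ⟨han2, ?_, ?_⟩
  · intro hsa
    have h2r : 2 * r < a := by
      rcases hc with ⟨rfl, rfl, rfl, rfl, rfl⟩ | ⟨rfl, rfl, rfl, rfl, rfl⟩ |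
        ⟨rfl, rfl, rfl, rfl, rfl⟩ <;> omega
    refine ⟨h2r, ?_⟩
    rcases hc with ⟨rfl, rfl, rfl, rfl, rfl⟩ | ⟨rfl, rfl, rfl, rfl, rfl⟩ |
        ⟨rfl, rfl, rfl, rfl, rfl⟩
    · rw [phi_eq n a (2 * r) q s hn ha (by omega) (-1) (-1) (-1) 0 0] <;> push_cast <;> omega
    · rw [phi_eq n a (2 * r) q s hn ha (by omega) (-1) (-1) (-1) 0 1] <;> push_cast <;> omega
    · omega
  · intro hsa
    have h5r : 5 * r < a := by
      rcases hc with ⟨rfl, rfl, rfl, rfl, rfl⟩ | ⟨rfl, rfl, rfl, rfl, rfl⟩ |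
        ⟨rfl, rfl, rfl, rfl, rfl⟩ <;> omega
    refine ⟨h5r, ?_⟩
    rcases hc with ⟨rfl, rfl, rfl, rfl, rfl⟩ | ⟨rfl, rfl, rfl, rfl, rfl⟩ |
        ⟨rfl, rfl, rfl, rfl, rfl⟩
    · omega
    · omega
    · by_cases h3 : 5 * r ≤ 3 * s - a
      · rw [phi_eq n a (5 * r) q s hn ha (by omega) 0 1 1 4 7] <;> push_cast <;> omega
      · rw [phi_eq n a (5 * r) q s hn ha (by omega) 0 0 1 4 7] <;> push_cast <;> omega

end Pool.Agent.Helper51

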