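import Mathlib.RingTheory.Depth.Rees
import Mathlib.RingTheory.Regular.Flat
import Mathlib.RingTheory.MvPolynomial.Ideal
import Mathlib.RingTheory.Polynomial.Basic
import Mathlib.RingTheory.MvPolynomial.Basic
import Mathlib.RingTheory.Localization.Away.Basic

open RingTheory.Sequence Pointwise MvPolynomial

namespace Pool.Agent.Helper51

/-- Distinct variables form a weakly regular sequence. -/
lemma isWeaklyRegular_X {σ k : Type*} [CommRing k] (l : List σ) (hl : l.Nodup) :
    IsWeaklyRegular (MvPolynomial σ k) (l.map (X : σ → MvPolynomial σ k)) := by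
  refine ⟨fun i h => ?_⟩
  have hi : i < l.length := by simpa using h
  set s : Set σ := {v | v ∈ l.take i} with hs
  have hnot : l[i] ∉ s := by
    intro hmem
    rw [hs, Set.mem_ofPred_eq, List.mem_take_iff_getElem] at hmem
    obtain ⟨j, hj, hjeq⟩ := hmem
    have hj' : j < i := by omega
    have := (List.Nodup.getElem_inj_iff hl).mp hjeq
    omega
  have hideal : (Ideal.ofList ((l.map (X : σ → MvPolynomial σ k)).take i) • ⊤ :
      Submodule (MvPolynomial σ k) (MvPolynomial σ k)) =
      Ideal.span ((X : σ → MvPolynomial σ k) '' s) := by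
    rw [Ideal.smul_top_eq_map]
    ext p
    simp only [Ideal.ofList, ← List.map_take, List.mem_map, Submodule.restrictScalars_mem,
      Algebra.algebraMap_self, Ideal.map_id]
    rfl
  rw [isSMulRegular_iff_right_eq_zero_of_smul]
  intro x hx
  obtain ⟨p, rfl⟩ := Submodule.Quotient.mk_surjective _ x
  rw [← Submodule.Quotient.mk_smul, Submodule.Quotient.mk_eq_zero, hideal] at hx
  rw [Submodule.Quotient.mk_eq_zero, hideal]
  rw [mem_ideal_span_X_image] at hx ⊢
  intro m hm
  have hm' : m + Finsupp.single l[i] 1 ∈ (X l[i] * p).support := by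
    rw [mem_support_iff, mul_comm, coeff_mul_X]
    exact mem_support_iff.mp hm
  obtain ⟨v, hv, hne⟩ := hx (m + Finsupp.single l[i] 1) (by simpa using hm')
  refine ⟨v, hv, ?_⟩
  have hvne : l[i] ≠ v := fun h => hnot (h ▸ hv)
  simpa [Finsupp.single_apply, hvne] using hne

section Elim

variable {σ : Type*} {k : Type*} [CommRing k]

/-- Elimination lemma. -/
lemma isWeaklyRegular_elim (s : MvPolynomial σ k) (RS : Type*) [CommRing RS]
    [Algebra (MvPolynomial σ k) RS] [IsLocalization.Away s RS]
    (P : Set σ) [DecidablePred (· ∈ P)] (f u g : σ → MvPolynomial σ k)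
    (hf : ∀ v ∈ P, f v = X v * u v + g v)
    (hs : ∀ φ : MvPolynomial σ k →+* RS, φ.comp C = (algebraMap (MvPolynomial σ k) RS).comp C →
      (∀ v, v ∉ P → φ (X v) = algebraMap (MvPolynomial σ k) RS (X v)) → φ s = algebraMap _ _ s)
    (hu : ∀ w ∈ P, ∀ φ : MvPolynomial σ k →+* RS,
      φ.comp C = (algebraMap (MvPolynomial σ k) RS).comp C →
      (∀ v, v ∉ P → φ (X v) = algebraMap (MvPolynomial σ k) RS (X v)) → φ (u w) = algebraMap _ _ (u w))
    (hg : ∀ w ∈ P, ∀ φ : MvPolynomial σ k →+* RS,
      φ.comp C = (algebraMap (MvPolynomial σ k) RS).comp C →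
      (∀ v, v ∉ P → φ (X v) = algebraMap (MvPolynomial σ k) RS (X v)) → φ (g w) = algebraMap _ _ (g w))
    (hunit : ∀ w ∈ P, IsUnit (algebraMap (MvPolynomial σ k) RS (u w)))
    (l : List σ) (hl : l.Nodup) :
    IsWeaklyRegular RS (l.map (fun v => if v ∈ P then f v else X v)) := by
  classical
  let i : MvPolynomial σ k →+* RS := algebraMap (MvPolynomial σ k) RS
  -- first hom
  let Φ₁ : MvPolynomial σ k →+* RS := eval₂Hom (i.comp C) (fun v => if v ∈ P then i (f v) else i (X v))
  let Φ₂ : MvPolynomial σ k →+* RS := eval₂Hom (i.comp C)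
    (fun v => if h : v ∈ P then ((hunit v h).unit⁻¹ : RSˣ) * (i (X v) - i (g v)) else i (X v))
  have h1C : Φ₁.comp C = i.comp C := by
    ext x; simp [Φ₁]
  have h2C : Φ₂.comp C = i.comp C := by
    ext x; simp [Φ₂]
  have h1X : ∀ v, v ∉ P → Φ₁ (X v) = i (X v) := by
    intro v hv; simp [Φ₁, hv]
  have h2X : ∀ v, v ∉ P → Φ₂ (X v) = i (X v) := by
    intro v hv; simp [Φ₂, hv]
  have h1P : ∀ v, v ∈ P → Φ₁ (X v) = i (f v) := by
    intro v hv; simp [Φ₁, hv]
  have h2P : ∀ v (hv : v ∈ P), i (u v) * Φ₂ (X v) = i (X v) - i (g v) := by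
    intro v hv
    simp only [Φ₂, eval₂Hom_X', hv, dif_pos]
    rw [← mul_assoc]
    have : i (u v) * ((hunit v hv).unit⁻¹ : RSˣ) = 1 := (hunit v hv).mul_val_inv
    rw [this, one_mul]
  have us : IsUnit (i s) := IsLocalization.Away.algebraMap_isUnit s
  have hs1 : IsUnit (Φ₁ s) := by rw [hs Φ₁ h1C h1X]; exact us
  have hs2 : IsUnit (Φ₂ s) := by rw [hs Φ₂ h2C h2X]; exact us
  let ψ₁ : RS →+* RS := IsLocalization.Away.lift s hs1
  let ψ₂ : RS →+* RS := IsLocalization.Away.lift s hs2
  have e1 : ∀ a, ψ₁ (i a) = Φ₁ a := fun a => IsLocalization.Away.lift_eq s hs1 a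
  have e2 : ∀ a, ψ₂ (i a) = Φ₂ a := fun a => IsLocalization.Away.lift_eq s hs2 a
  have c12 : ψ₁.comp ψ₂ = RingHom.id RS := by
    apply IsLocalization.ringHom_ext (Submonoid.powers s)
    apply MvPolynomial.ringHom_ext
    · intro r
      simp only [RingHom.comp_apply, RingHom.id_apply]
      rw [show (algebraMap (MvPolynomial σ k) RS) = i from rfl, e2]
      have := RingHom.congr_fun h2C r
      simp only [RingHom.comp_apply] at this
      rw [this, e1]
      exact RingHom.congr_fun h1C r
    · intro v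
      simp only [RingHom.comp_apply, RingHom.id_apply]
      rw [show (algebraMap (MvPolynomial σ k) RS) = i from rfl, e2]
      by_cases hv : v ∈ P
      · have h3 : ψ₁ (i (u v)) * ψ₁ (Φ₂ (X v)) = i (u v) * i (X v) := by
          rw [← map_mul, h2P v hv, map_sub, e1, e1, h1P v hv, hg v hv Φ₁ h1C h1X, hf v hv]
          simp only [map_add, map_mul]
          rw [show (algebraMap (MvPolynomial σ k) RS) = i from rfl]
          ring
        rw [e1, hu v hv Φ₁ h1C h1X] at h3
        exact (hunit v hv).mul_left_cancel h3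
      · rw [h2X v hv, e1, h1X v hv]
  have c21 : ψ₂.comp ψ₁ = RingHom.id RS := by
    apply IsLocalization.ringHom_ext (Submonoid.powers s)
    apply MvPolynomial.ringHom_ext
    · intro r
      simp only [RingHom.comp_apply, RingHom.id_apply]
      rw [show (algebraMap (MvPolynomial σ k) RS) = i from rfl, e1]
      have := RingHom.congr_fun h1C r
      simp only [RingHom.comp_apply] at this
      rw [this, e2]
      exact RingHom.congr_fun h2C r
    · intro v
      simp only [RingHom.comp_apply, RingHom.id_apply]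
      rw [show (algebraMap (MvPolynomial σ k) RS) = i from rfl, e1]
      by_cases hv : v ∈ P
      · rw [h1P v hv, e2, hf v hv, map_add, map_mul, hg v hv Φ₂ h2C h2X, hu v hv Φ₂ h2C h2X,
          mul_comm]
        rw [show (algebraMap (MvPolynomial σ k) RS) = i from rfl, h2P v hv]
        ring
      · rw [h1X v hv, e2, h2X v hv]
  let e : RS ≃+* RS := RingEquiv.ofRingHom ψ₁ ψ₂ c12 c21
  have hbase : IsWeaklyRegular RS ((l.map (X : σ → MvPolynomial σ k)).map i) :=
    (isWeaklyRegular_X (k := k) l hl).of_isLocalization RS (Submonoid.powers s)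
  rw [← isWeaklyRegular_map_algebraMap_iff (S := RS)]
  refine (AddEquiv.isWeaklyRegular_congr (e := e.toAddEquiv) (M := RS) (M₂ := RS)
    (as := (l.map (X : σ → MvPolynomial σ k)).map i) ?_).mp hbase
  rw [List.map_map, List.map_map, List.forall₂_map_left_iff, List.forall₂_map_right_iff,
    List.forall₂_same]
  intro v _ x
  simp only [Function.comp, smul_eq_mul]
  change ψ₁ (i (X v) * x) = _ * ψ₁ x
  rw [map_mul, e1]
  by_cases hv : v ∈ P
  · rw [h1P v hv]; simp [hv, i]
  · rw [h1X v hv]; simp [hv, i]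

end Elim

end Pool.Agent.Helper51
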