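import Pool.Agent.Helper51.Step
import Pool.Agent.Helper51.Generic

open RingTheory.Sequence Pointwise MvPolynomial

namespace Pool.Agent.Helper51

section GenericCI

variable {ι : Type} [Fintype ι] [DecidableEq ι] {r L : ℕ}

/-- The weight of an exponent vector. -/
def wt (w : ι → ℕ) (a : ι → Fin L) : ℕ := ∑ k, (a k : ℕ) * w k

/-- The ring containing the universal polynomials: polynomials over `ℚ` in the variables `x_k`
and the coefficient variables `u_{i,a}`. -/
abbrev GRing (ι : Type) (r L : ℕ) := MvPolynomial (ι ⊕ (Fin r × (ι → Fin L))) ℚ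

/-- The monomial with exponent vector `a`. -/
noncomputable def xmon (a : ι → Fin L) : GRing ι r L := ∏ k, X (Sum.inl k) ^ (a k : ℕ)

/-- The universal weighted homogeneous polynomial of degree `m i`. -/
noncomputable def gen (w : ι → ℕ) (m : Fin r → ℕ) (i : Fin r) : GRing ι r L :=
  ∑ a ∈ Finset.univ.filter (fun a : ι → Fin L => wt w a = m i), X (Sum.inr (i, a)) * xmon a

lemma isWeaklyRegular_local (w : ι → ℕ) (m : Fin r → ℕ) (S : Finset ι) (I : List (Fin r))
    (hI : I.Nodup) (a : Fin r → ι → Fin L)
    (ha : ∀ i ∈ I, wt w (a i) = m i ∧ ∀ k ∉ S, (a i k : ℕ) = 0) :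
    IsWeaklyRegular (Localization.Away (∏ k ∈ S, X (Sum.inl k) : GRing ι r L))
      (((Sᶜ.toList.map (fun k => (X (Sum.inl k) : GRing ι r L)))) ++ I.map (gen w m)) := by
  classical
  let P : Set (ι ⊕ (Fin r × (ι → Fin L))) := {v | ∃ i ∈ I, v = Sum.inr (i, a i)}
  have hPl : ∀ k, Sum.inl k ∉ P := by
    rintro k ⟨i, _, h⟩; cases h
  have hPr : ∀ i b, Sum.inr (i, b) ∈ P ↔ i ∈ I ∧ b = a i := by
    intro i b
    constructor
    · rintro ⟨i', hi', h⟩
      have h1 := Sum.inr.inj h
      simp only [Prod.mk.injEq] at h1
      obtain ⟨rfl, rfl⟩ := h1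
      exact ⟨hi', rfl⟩
    · rintro ⟨h1, h2⟩
      exact ⟨i, h1, by rw [h2]⟩
  let f : (ι ⊕ (Fin r × (ι → Fin L))) → GRing ι r L := fun v =>
    match v with
    | Sum.inl _ => 0
    | Sum.inr (i, _) => gen w m i
  let u : (ι ⊕ (Fin r × (ι → Fin L))) → GRing ι r L := fun v =>
    match v with
    | Sum.inl _ => 1
    | Sum.inr (_, b) => xmon b
  let g : (ι ⊕ (Fin r × (ι → Fin L))) → GRing ι r L := fun v =>
    match v with
    | Sum.inl _ => 0
    | Sum.inr (i, b) => gen w m i - X (Sum.inr (i, b)) * xmon b
  have hlist : ((Sᶜ.toList.map (fun k => (X (Sum.inl k) : GRing ι r L)))) ++ I.map (gen w m) =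
      (((Sᶜ.toList.map Sum.inl) ++ I.map (fun i => Sum.inr (i, a i))).map
        (fun v => if v ∈ P then f v else X v)) := by
    rw [List.map_append, List.map_map, List.map_map]
    congr 1
    · apply List.map_congr_left
      intro k _
      simp [hPl k]
    · apply List.map_congr_left
      intro i hi
      simp only [Function.comp]
      rw [if_pos ((hPr i (a i)).mpr ⟨hi, rfl⟩)]
  rw [hlist]
  refine isWeaklyRegular_elim (∏ k ∈ S, X (Sum.inl k) : GRing ι r L) _ P f u g ?_ ?_ ?_ ?_ ?_
    ((Sᶜ.toList.map Sum.inl) ++ I.map (fun i => Sum.inr (i, a i))) ?_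
  · rintro v ⟨i, hi, rfl⟩
    simp only [f, u, g]
    ring
  · intro φ hC hX
    rw [map_prod, map_prod]
    exact Finset.prod_congr rfl (fun k _ => hX _ (hPl k))
  · rintro v ⟨i, hi, rfl⟩ φ hC hX
    simp only [u, xmon]
    rw [map_prod, map_prod]
    exact Finset.prod_congr rfl (fun k _ => by rw [map_pow, map_pow, hX _ (hPl k)])
  · rintro v ⟨i, hi, rfl⟩ φ hC hX
    simp only [g]
    have hmem : a i ∈ Finset.univ.filter (fun b : ι → Fin L => wt w b = m i) := by
      simp [(ha i hi).1]
    have hg : gen w m i - X (Sum.inr (i, a i)) * xmon (a i) =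
        ∑ b ∈ (Finset.univ.filter (fun b : ι → Fin L => wt w b = m i)).erase (a i),
          (X (Sum.inr (i, b)) * xmon b : GRing ι r L) := by
      rw [gen, ← Finset.add_sum_erase _ _ hmem]
      ring
    rw [hg, map_sum, map_sum]
    refine Finset.sum_congr rfl (fun b hb => ?_)
    have hb' : b ≠ a i := Finset.ne_of_mem_erase hb
    rw [map_mul, map_mul, hX _ (by rw [hPr]; tauto), xmon, map_prod, map_prod]
    congr 1
    exact Finset.prod_congr rfl (fun k _ => by rw [map_pow, map_pow, hX _ (hPl k)])
  · rintro v ⟨i, hi, rfl⟩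
    simp only [u, xmon]
    rw [map_prod]
    apply Finset.prod_induction _ (fun x => IsUnit x) (fun _ _ => IsUnit.mul) isUnit_one
    intro k _
    rw [map_pow]
    by_cases hk : k ∈ S
    · apply IsUnit.pow
      have hdvd : (X (Sum.inl k) : GRing ι r L) ∣ (∏ k ∈ S, X (Sum.inl k) : GRing ι r L) :=
        Finset.dvd_prod_of_mem _ hk
      exact isUnit_of_dvd_unit (map_dvd _ hdvd) (IsLocalization.Away.algebraMap_isUnit _)
    · rw [(ha i hi).2 k hk, pow_zero]
      exact isUnit_one
  · rw [List.nodup_append]
    refine ⟨(Finset.nodup_toList _).map Sum.inl_injective, hI.map ?_, ?_⟩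
    · intro i j h
      have h1 := Sum.inr.inj h
      simp only [Prod.mk.injEq] at h1
      exact h1.1
    · intro x hx y hy
      simp only [List.mem_map] at hx hy
      obtain ⟨k, _, rfl⟩ := hx
      obtain ⟨i, _, rfl⟩ := hy
      simp

/-- **Universal weighted complete intersection.** If for every set `S` of variables the number of
indices `i` such that some monomial of degree `m i` is supported on `S` is at least `|S|`, then the
universal weighted homogeneous polynomials of degrees `m i` form a weakly regular sequence. -/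
theorem gen_isWeaklyRegular (w : ι → ℕ) (m : Fin r → ℕ) (hr : r = Fintype.card ι)
    (hall : ∀ S : Finset ι, S.card ≤ (Finset.univ.filter (fun i : Fin r =>
      ∃ a : ι → Fin L, wt w a = m i ∧ ∀ k ∉ S, (a k : ℕ) = 0)).card) :
    IsWeaklyRegular (GRing ι r L) (List.ofFn (fun i => (gen w m i : GRing ι r L))) := by
  classical
  set fs : List (GRing ι r L) := List.ofFn (fun i => (gen w m i : GRing ι r L)) with hfs
  have hlen : fs.length = r := by simp [hfs]
  suffices h : ∀ j ≤ r, IsWeaklyRegular (GRing ι r L) (fs.take j) by
    have := h r le_rfl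
    rwa [List.take_of_length_le hlen.le] at this
  intro j
  induction j with
  | zero => intro _; simp
  | succ j ih =>
    intro hj
    have hjr : j < r := hj
    rw [List.take_succ_eq_append_getElem (by omega)]
    apply regular_step _ _ (ih (by omega))
    intro Q hQ hfsQ hgQ
    let S : Finset ι := Finset.univ.filter (fun k => (X (Sum.inl k) : GRing ι r L) ∉ Q)
    have hSc : ∀ k, k ∉ S → (X (Sum.inl k) : GRing ι r L) ∈ Q := by
      intro k hk; simpa [S] using hk
    let Pr : Fin r → Prop := fun i => ∃ a : ι → Fin L, wt w a = m i ∧ ∀ k ∉ S, (a k : ℕ) = 0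
    let a : Fin r → ι → Fin L := fun i =>
      if h : Pr i then h.choose else (fun k => ⟨0, by
        by_contra hL
        have hL0 : L = 0 := by omega
        subst hL0
        -- then there are no exponent vectors, Hall fails for `S = univ` unless `ι` is empty
        have h1 := hall Finset.univ
        have h2 : (Finset.univ.filter (fun i : Fin r =>
          ∃ a : ι → Fin 0, wt w a = m i ∧ ∀ k ∉ Finset.univ, (a k : ℕ) = 0)).card = 0 := by
          rw [Finset.card_eq_zero, Finset.filter_eq_empty_iff]
          rintro i _ ⟨a, _⟩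
          exact (a k).elim0
        rw [h2] at h1
        have : Fintype.card ι = 0 := by simpa using h1
        have := Fintype.card_eq_zero_iff.mp this
        exact this.elim k⟩)
    let I : List (Fin r) := (List.finRange r).filter (fun i => decide (i.1 ≤ j ∧ Pr i))
    have hI : I.Nodup := (List.nodup_finRange r).filter _
    have memI : ∀ i, i ∈ I ↔ i.1 ≤ j ∧ Pr i := by
      intro i; simp [I]
    have haI : ∀ i ∈ I, wt w (a i) = m i ∧ ∀ k ∉ S, (a i k : ℕ) = 0 := by
      intro i hi
      have hp : Pr i := ((memI i).mp hi).2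
      have : a i = hp.choose := by simp only [a]; rw [dif_pos hp]
      rw [this]
      exact hp.choose_spec
    refine ⟨∏ k ∈ S, X (Sum.inl k), _, ?_, ?_, ?_, isWeaklyRegular_local w m S I hI a haI⟩
    · intro hmem
      rw [hQ.prod_mem_iff] at hmem
      obtain ⟨k, hk, hkQ⟩ := hmem
      have : (X (Sum.inl k) : GRing ι r L) ∉ Q := by simpa [S] using hk
      exact this hkQ
    · intro y hy
      rw [List.mem_append, List.mem_map, List.mem_map] at hy
      rcases hy with ⟨k, hk, rfl⟩ | ⟨i, hi, rfl⟩
      · apply hSc
        simpa using hk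
      · obtain ⟨hij, _⟩ := (memI i).mp hi
        rcases Nat.lt_or_eq_of_le hij with h | h
        · apply hfsQ
          rw [List.mem_take_iff_getElem]
          refine ⟨i.1, by rw [hlen]; omega, ?_⟩
          simp [hfs]
        · have : fs[j] = gen w m i := by
            simp only [hfs, List.getElem_ofFn]
            congr 1
            exact Fin.ext h.symm
          rw [← this]; exact hgQ
    · rw [List.length_append, List.length_map, List.length_map, Finset.length_toList,
        Finset.card_compl, List.length_take, hlen]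
      have hIlen : I.length = (Finset.univ.filter (fun i : Fin r => i.1 ≤ j ∧ Pr i)).card := by
        rw [← List.toFinset_card_of_nodup hI]
        congr 1
        ext i
        simp [memI]
      have h1 := hall S
      have h2 : (Finset.univ.filter (fun i : Fin r => Pr i)).card ≤
          (Finset.univ.filter (fun i : Fin r => i.1 ≤ j ∧ Pr i)).card +
          (Finset.univ.filter (fun i : Fin r => j < i.1)).card := by
        rw [← Finset.card_union_of_disjoint]
        · apply Finset.card_le_card
          intro i hi
          simp only [Finset.mem_filter, Finset.mem_univ, true_and, Finset.mem_union] at hi ⊢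
          by_cases h : i.1 ≤ j
          · left; exact ⟨h, hi⟩
          · right; omega
        · rw [Finset.disjoint_filter]
          intro i _ h; omega
      have h3 : (Finset.univ.filter (fun i : Fin r => j < i.1)).card = r - 1 - j := by
        have h3' : (Finset.univ.filter (fun i : Fin r => j < i.1)) = Finset.Ioi ⟨j, hjr⟩ := by
          ext i; simp [Fin.lt_def]
        rw [h3', Fin.card_Ioi]
      have h4 : S.card ≤ Fintype.card ι := Finset.card_le_univ S
      have h5 : S.card ≤ (Finset.univ.filter (fun i : Fin r => Pr i)).card := h1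
      omega

end GenericCI

end Pool.Agent.Helper51
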