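import Pool.Agent.Helper51.Generic
import Mathlib.RingTheory.MvPolynomial.WeightedHomogeneous
import Mathlib.RingTheory.PowerSeries.Basic
import Mathlib.LinearAlgebra.FiniteDimensional.Lemmas

open RingTheory.Sequence Pointwise MvPolynomial

namespace Pool.Agent.Helper51

section Hilbert

variable {K : Type*} [Field K] {ι : Type*} [Fintype ι] (w : ι → ℕ)

/-- closed under taking weighted homogeneous components -/
def HomIdeal (J : Ideal (MvPolynomial ι K)) : Prop :=
  ∀ p ∈ J, ∀ d, weightedHomogeneousComponent w d p ∈ J

/-- The Hilbert function of the quotient by `J`, as an integer. -/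
noncomputable def hfun (J : Ideal (MvPolynomial ι K)) (d : ℕ) : ℤ :=
  (Module.finrank K (weightedHomogeneousSubmodule K w d) : ℤ) -
    Module.finrank K ((J.restrictScalars K ⊓ weightedHomogeneousSubmodule K w d :
      Submodule K (MvPolynomial ι K)))

omit [Fintype ι] in
lemma component_mul {f : MvPolynomial ι K} {m : ℕ} (hf : IsWeightedHomogeneous w f m) (d : ℕ)
    (b : MvPolynomial ι K) :
    weightedHomogeneousComponent w d (f * b) =
      if m ≤ d then f * weightedHomogeneousComponent w (d - m) b else 0 := by
  classical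
  induction b using MvPolynomial.induction_on' with
  | monomial e c =>
    have h1 : IsWeightedHomogeneous w (monomial e c) (Finsupp.weight w e) :=
      isWeightedHomogeneous_monomial w e c rfl
    have h2 : IsWeightedHomogeneous w (f * monomial e c) (m + Finsupp.weight w e) := hf.mul h1
    rw [weightedHomogeneousComponent_of_mem (mem_weightedHomogeneousSubmodule K w _ _ |>.mpr h2)]
    by_cases hmd : m ≤ d
    · rw [if_pos hmd, weightedHomogeneousComponent_of_mem
        (mem_weightedHomogeneousSubmodule K w _ _ |>.mpr h1)]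
      by_cases he : d = m + Finsupp.weight w e
      · rw [if_pos he, if_pos (by omega)]
      · rw [if_neg he, if_neg (by omega), mul_zero]
    · rw [if_neg hmd, if_neg (by omega)]
  | add p q hp hq =>
    rw [mul_add, map_add, hp, hq]
    by_cases hmd : m ≤ d
    · simp only [if_pos hmd, map_add, mul_add]
    · simp only [if_neg hmd, add_zero]

omit [Fintype ι] in
lemma homIdeal_sup {J : Ideal (MvPolynomial ι K)} (hJ : HomIdeal w J) {f : MvPolynomial ι K}
    {m : ℕ} (hf : IsWeightedHomogeneous w f m) : HomIdeal w (J ⊔ Ideal.span {f}) := by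
  intro p hp d
  rw [Submodule.mem_sup] at hp
  obtain ⟨a, ha, b, hb, rfl⟩ := hp
  rw [Ideal.mem_span_singleton'] at hb
  obtain ⟨c, rfl⟩ := hb
  rw [map_add, mul_comm c f, component_mul w hf]
  refine Ideal.add_mem _ (Ideal.mem_sup_left (hJ a ha d)) ?_
  split_ifs
  · exact Ideal.mem_sup_right (Ideal.mul_mem_right _ _ (Ideal.subset_span rfl))
  · exact Ideal.zero_mem _

lemma finite_whs (hw : ∀ k, w k ≠ 0) (d : ℕ) :
    Module.Finite K (weightedHomogeneousSubmodule K w d) :=
  Module.Finite.iff_fg.mpr (weightedHomogeneousSubmodule_fg K w hw d)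

lemma hfun_nonneg (hw : ∀ k, w k ≠ 0) (J : Ideal (MvPolynomial ι K)) (d : ℕ) :
    0 ≤ hfun w J d := by
  have := finite_whs (K := K) w hw d
  have h : Module.finrank K ((J.restrictScalars K ⊓ weightedHomogeneousSubmodule K w d :
      Submodule K (MvPolynomial ι K))) ≤
      Module.finrank K (weightedHomogeneousSubmodule K w d) :=
    Submodule.finrank_mono inf_le_right
  unfold hfun
  omega

lemma hfun_sup (hw : ∀ k, w k ≠ 0) {J : Ideal (MvPolynomial ι K)} (hJ : HomIdeal w J)
    {f : MvPolynomial ι K} {m : ℕ} (hf : IsWeightedHomogeneous w f m)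
    (hreg : ∀ p, f * p ∈ J → p ∈ J) (d : ℕ) :
    hfun w (J ⊔ Ideal.span {f}) d = hfun w J d - if m ≤ d then hfun w J (d - m) else 0 := by
  classical
  have hfin := finite_whs (K := K) w hw
  have mem_sup : ∀ p, p ∈ J ⊔ Ideal.span {f} ↔ ∃ a ∈ J, ∃ c, a + f * c = p := by
    intro p
    rw [Submodule.mem_sup]
    constructor
    · rintro ⟨a, ha, b, hb, rfl⟩
      obtain ⟨c, rfl⟩ := Ideal.mem_span_singleton'.mp hb
      exact ⟨a, ha, c, by rw [mul_comm]⟩
    · rintro ⟨a, ha, c, rfl⟩
      exact ⟨a, ha, f * c, Ideal.mul_mem_right _ _ (Ideal.subset_span rfl), rfl⟩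
  -- components of an element of the intersection
  have key : ∀ p ∈ J ⊔ Ideal.span {f}, p ∈ weightedHomogeneousSubmodule K w d →
      ∃ a ∈ J, a ∈ weightedHomogeneousSubmodule K w d ∧
        ((m ≤ d ∧ ∃ v ∈ weightedHomogeneousSubmodule K w (d - m), p = a + f * v) ∨
          (¬ m ≤ d ∧ p = a)) := by
    intro p hp hpd
    obtain ⟨a, ha, c, rfl⟩ := (mem_sup p).mp hp
    have h1 : weightedHomogeneousComponent w d (a + f * c) = a + f * c := by
      rw [weightedHomogeneousComponent_of_mem hpd, if_pos rfl]
    rw [map_add, component_mul w hf] at h1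
    refine ⟨weightedHomogeneousComponent w d a, hJ a ha d,
      weightedHomogeneousComponent_mem w a d, ?_⟩
    by_cases hmd : m ≤ d
    · left
      rw [if_pos hmd] at h1
      exact ⟨hmd, _, weightedHomogeneousComponent_mem w c (d - m), h1.symm⟩
    · right
      rw [if_neg hmd, add_zero] at h1
      exact ⟨hmd, h1.symm⟩
  by_cases hmd : m ≤ d
  · rw [if_pos hmd]
    set V := weightedHomogeneousSubmodule K w d with hV
    set V' := weightedHomogeneousSubmodule K w (d - m) with hV'
    set J' := J ⊔ Ideal.span {f} with hJ'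
    let π := (J.restrictScalars K).mkQ
    let T : V' →ₗ[K] (MvPolynomial ι K ⧸ J.restrictScalars K) :=
      π ∘ₗ (LinearMap.mulLeft K f) ∘ₗ V'.subtype
    have hfinI : Module.Finite K (J'.restrictScalars K ⊓ V : Submodule K (MvPolynomial ι K)) := by
      have := hfin d
      exact Submodule.finiteDimensional_of_le (S₂ := V) inf_le_right
    let T' : (J'.restrictScalars K ⊓ V : Submodule K (MvPolynomial ι K)) →ₗ[K]
        (MvPolynomial ι K ⧸ J.restrictScalars K) :=
      π ∘ₗ (J'.restrictScalars K ⊓ V : Submodule K (MvPolynomial ι K)).subtype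
    have hTker : Module.finrank K (LinearMap.ker T) =
        Module.finrank K (J.restrictScalars K ⊓ V' : Submodule K (MvPolynomial ι K)) := by
      rw [← Submodule.finrank_map_subtype_eq V' (LinearMap.ker T)]
      have : (LinearMap.ker T).map V'.subtype = J.restrictScalars K ⊓ V' := by
        ext p
        simp only [Submodule.mem_map, LinearMap.mem_ker, Submodule.subtype_apply,
          Submodule.mem_inf, Submodule.restrictScalars_mem, T, LinearMap.comp_apply, π,
          Submodule.mkQ_apply, Submodule.Quotient.mk_eq_zero, LinearMap.mulLeft_apply]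
        constructor
        · rintro ⟨v, hv, rfl⟩
          exact ⟨hreg _ hv, v.2⟩
        · rintro ⟨h1, h2⟩
          exact ⟨⟨p, h2⟩, Ideal.mul_mem_left _ _ h1, rfl⟩
      rw [this]
    have hT'ker : Module.finrank K (LinearMap.ker T') =
        Module.finrank K (J.restrictScalars K ⊓ V : Submodule K (MvPolynomial ι K)) := by
      rw [← Submodule.finrank_map_subtype_eq _ (LinearMap.ker T')]
      have : (LinearMap.ker T').map
          (J'.restrictScalars K ⊓ V : Submodule K (MvPolynomial ι K)).subtype =
          J.restrictScalars K ⊓ V := by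
        ext p
        simp only [Submodule.mem_map, LinearMap.mem_ker, Submodule.subtype_apply,
          Submodule.mem_inf, Submodule.restrictScalars_mem, T', LinearMap.comp_apply, π,
          Submodule.mkQ_apply, Submodule.Quotient.mk_eq_zero]
        constructor
        · rintro ⟨v, hv, rfl⟩
          exact ⟨hv, v.2.2⟩
        · rintro ⟨h1, h2⟩
          exact ⟨⟨p, ⟨Ideal.mem_sup_left h1, h2⟩⟩, h1, rfl⟩
      rw [this]
    have hrange : LinearMap.range T' = LinearMap.range T := by
      ext q
      simp only [LinearMap.mem_range, T, T', LinearMap.comp_apply, π, Submodule.mkQ_apply,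
        Submodule.subtype_apply, LinearMap.mulLeft_apply]
      constructor
      · rintro ⟨⟨p, hp⟩, rfl⟩
        obtain ⟨a, ha, _, h | h⟩ := key p hp.1 hp.2
        · obtain ⟨_, v, hv, rfl⟩ := h
          refine ⟨⟨v, hv⟩, ?_⟩
          rw [Submodule.Quotient.eq]
          simpa using ha
        · exact absurd hmd h.1
      · rintro ⟨⟨v, hv⟩, rfl⟩
        refine ⟨⟨f * v, ⟨?_, ?_⟩⟩, rfl⟩
        · exact Ideal.mem_sup_right (Ideal.mul_mem_right _ _ (Ideal.subset_span rfl))
        · have hd : m + (d - m) = d := by omega
          have h3 : IsWeightedHomogeneous w (f * v) (m + (d - m)) :=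
            hf.mul ((mem_weightedHomogeneousSubmodule K w _ _).mp hv)
          rw [hd] at h3
          exact h3
    have e1 := LinearMap.finrank_range_add_finrank_ker T
    have e2 := LinearMap.finrank_range_add_finrank_ker T'
    rw [hTker] at e1
    rw [hT'ker, hrange] at e2
    unfold hfun
    rw [← hV, ← hV']
    omega
  · rw [if_neg hmd, sub_zero]
    unfold hfun
    have : ((J ⊔ Ideal.span {f}).restrictScalars K ⊓ weightedHomogeneousSubmodule K w d :
        Submodule K (MvPolynomial ι K)) =
        J.restrictScalars K ⊓ weightedHomogeneousSubmodule K w d := by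
      ext p
      constructor
      · rintro ⟨h1, h2⟩
        obtain ⟨a, ha, _, h | h⟩ := key p h1 h2
        · exact absurd h.1 hmd
        · obtain ⟨_, rfl⟩ := h
          exact ⟨ha, h2⟩
      · rintro ⟨h1, h2⟩
        exact ⟨Ideal.mem_sup_left h1, h2⟩
    rw [this]

end Hilbert

end Pool.Agent.Helper51
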