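import Pool.Agent.Helper51.BaseChange

open MvPolynomial

namespace Pool.Agent.Helper51

/-- **Positivity from the Hall condition.** Let `w k` be positive weights and `m i` degrees, equal in
number. If for each set `S` of weights at least `|S|` of the degrees `m i` are nonnegative integer
combinations of the weights in `S`, then `∏ (1 - X ^ m i) / ∏ (1 - X ^ w k)` has nonnegative
coefficients. -/
theorem positivity_of_hall {ι : Type} [Fintype ι] [DecidableEq ι] (w : ι → ℕ)
    (hw : ∀ k, w k ≠ 0) {r : ℕ} (m : Fin r → ℕ) (hr : r = Fintype.card ι)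
    (hall : ∀ S : Finset ι, ∃ T : Finset (Fin r), S.card ≤ T.card ∧
      ∀ i ∈ T, ∃ a : ι → ℕ, ∑ k, a k * w k = m i ∧ ∀ k ∉ S, a k = 0) :
    ∃ H : PowerSeries ℤ, (∀ d, 0 ≤ PowerSeries.coeff d H) ∧
      H * ∏ k, (1 - PowerSeries.X ^ w k) = ∏ i, (1 - PowerSeries.X ^ m i) := by
  classical
  let L : ℕ := (∑ i, m i) + 1
  have hL : ∀ i, m i < L := fun i =>
    Nat.lt_succ_of_le (Finset.single_le_sum (f := m) (fun _ _ => Nat.zero_le _) (Finset.mem_univ i))
  have hall' : ∀ S : Finset ι, S.card ≤ (Finset.univ.filter (fun i : Fin r =>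
      ∃ a : ι → Fin L, wt w a = m i ∧ ∀ k ∉ S, (a k : ℕ) = 0)).card := by
    intro S
    obtain ⟨T, hT, hTi⟩ := hall S
    refine hT.trans (Finset.card_le_card ?_)
    intro i hi
    rw [Finset.mem_filter]
    refine ⟨Finset.mem_univ _, ?_⟩
    obtain ⟨a, ha, haS⟩ := hTi i hi
    have hle : ∀ k, a k < L := by
      intro k
      have h1 : a k * w k ≤ ∑ k, a k * w k :=
        Finset.single_le_sum (f := fun k => a k * w k) (fun _ _ => Nat.zero_le _)
          (Finset.mem_univ k)
      have h2 : a k ≤ a k * w k := Nat.le_mul_of_pos_right _ (Nat.pos_of_ne_zero (hw k))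
      have h3 := hL i
      omega
    exact ⟨fun k => ⟨a k, hle k⟩, ha, fun k hk => haS k hk⟩
  have hreg := genK_isWeaklyRegular (L := L) w m hr hall'
  refine ⟨hilb w (Ideal.ofList (List.ofFn (fun i =>
    (genK w m i : MvPolynomial ι (CField ι r L))))), ?_, ?_⟩
  · intro d
    rw [hilb, PowerSeries.coeff_mk]
    exact hfun_nonneg w hw _ d
  · exact hilb_identity w hw (fun i => (genK w m i : MvPolynomial ι (CField ι r L))) m
      (fun i => genK_isWeightedHomogeneous w m i) hreg

end Pool.Agent.Helper51
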