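import Pool.Agent.Helper51.Floor
import Mathlib.Algebra.Group.Submonoid.Basic
import Mathlib.Order.Interval.Finset.Nat
import Mathlib.Algebra.BigOperators.Group.Finset.Basic
import Mathlib.Algebra.Order.BigOperators.Group.Finset
import Mathlib.Data.Nat.ModEq
import Mathlib.Algebra.BigOperators.Ring.Finset
import Mathlib.Data.Nat.Cast.Order.Basic

namespace Pool.Agent.Helper51

open Finset

section

open Classical

variable (Sg : AddSubmonoid ℕ)

/-- number of positive elements `≤ y` -/
noncomputable def cnt (y : ℕ) : ℕ := ((Ioc 0 y).filter (fun x => x ∈ Sg)).card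

/-- number of positive elements `≤ y` in the class `r` mod `a` -/
noncomputable def cntr (a r y : ℕ) : ℕ :=
  ((Ioc 0 y).filter (fun x => x ∈ Sg ∧ x % a = r)).card

lemma cnt_eq_sum (a y : ℕ) (ha : 0 < a) : cnt Sg y = ∑ r ∈ range a, cntr Sg a r y := by
  unfold cnt cntr
  rw [Finset.card_eq_sum_card_fiberwise (f := fun x => x % a) (t := range a)]
  · apply Finset.sum_congr rfl
    intro r _
    rw [Finset.filter_filter]
  · intro x _
    simp only [coe_range, Set.mem_Iio]
    exact Nat.mod_lt x ha

/-- The shifted Apery element of the class `r`. -/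
noncomputable def vv (a n r : ℕ) : ℕ :=
  if h : ∃ x, x ∈ Sg ∧ 0 < x ∧ x % a = r then Nat.find h - a else r + 15 * n * a

lemma vv_spec (a n r : ℕ) (ha : 0 < a) (haS : a ∈ Sg) (hmin : ∀ x ∈ Sg, 0 < x → a ≤ x)
    (hr : r < a) :
    vv Sg a n r % a = r ∧ (r = 0 → vv Sg a n r = 0) ∧
      (∀ y ≤ 15 * n, cntr Sg a r y = (y - vv Sg a n r) / a) ∧
      (∀ x ∈ Sg, 0 < x → x % a = r → vv Sg a n r ≤ x - a) := by
  by_cases h : ∃ x, x ∈ Sg ∧ 0 < x ∧ x % a = r
  · have hv : vv Sg a n r = Nat.find h - a := by unfold vv; rw [dif_pos h]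
    obtain ⟨h1, h2, h3⟩ := Nat.find_spec h
    set w := Nat.find h with hw
    have hwa : a ≤ w := hmin w h1 h2
    have hminw : ∀ x ∈ Sg, 0 < x → x % a = r → w ≤ x := fun x hx hx0 hxr =>
      Nat.find_min' h ⟨hx, hx0, hxr⟩
    have hvw : vv Sg a n r + a = w := by rw [hv]; omega
    have hvmod : vv Sg a n r % a = r := by
      rw [← Nat.add_mod_right, hvw]; exact h3
    refine ⟨hvmod, ?_, ?_, ?_⟩
    · intro hr0
      subst hr0
      have := hminw a haS ha (Nat.mod_self a)
      omega
    · intro y _
      generalize vv Sg a n r = v at *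
      unfold cntr
      have himg : (Ioc 0 y).filter (fun x => x ∈ Sg ∧ x % a = r) =
          (range ((y - v) / a)).image (fun j => w + j * a) := by
        ext x
        simp only [mem_filter, mem_Ioc, mem_image, mem_range]
        constructor
        · rintro ⟨⟨hx0, hxy⟩, hxS, hxr⟩
          have hwx := hminw x hxS hx0 hxr
          have hdvd : a ∣ x - w := by
            apply (Nat.modEq_iff_dvd' hwx).mp
            rw [Nat.ModEq, h3, hxr]
          obtain ⟨j, hj⟩ := hdvd
          have hj' : x = w + j * a := by
            rw [mul_comm] at hj; omega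
          refine ⟨j, ?_, hj'.symm⟩
          have hj1 : j + 1 ≤ (y - v) / a := by
            rw [Nat.le_div_iff_mul_le ha]
            have e1 : (j + 1) * a = j * a + a := by ring
            omega
          exact hj1
        · rintro ⟨j, hj, rfl⟩
          have hj1 : j + 1 ≤ (y - v) / a := hj
          rw [Nat.le_div_iff_mul_le ha] at hj1
          have e1 : (j + 1) * a = j * a + a := by ring
          have e2 : 0 < (j + 1) * a := by positivity
          refine ⟨⟨by omega, by omega⟩, ?_, ?_⟩
          · apply Sg.add_mem h1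
            have := Sg.nsmul_mem haS j
            simpa using this
          · rw [Nat.add_mul_mod_self_right]; exact h3
      rw [himg, Finset.card_image_of_injective, card_range]
      intro i j hij
      have : i * a = j * a := by simpa using hij
      exact Nat.eq_of_mul_eq_mul_right ha this
    · intro x hx hx0 hxr
      have := hminw x hx hx0 hxr
      rw [hv]; omega
  · have hv : vv Sg a n r = r + 15 * n * a := by unfold vv; rw [dif_neg h]
    have hmod : vv Sg a n r % a = r := by
      rw [hv, Nat.add_mul_mod_self_right, Nat.mod_eq_of_lt hr]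
    refine ⟨hmod, ?_, ?_, ?_⟩
    · intro hr0
      exfalso
      apply h
      exact ⟨a, haS, ha, by rw [hr0]; exact Nat.mod_self a⟩
    · intro y hy
      have hzero : cntr Sg a r y = 0 := by
        unfold cntr
        rw [card_eq_zero, filter_eq_empty_iff]
        rintro x hx ⟨hxS, hxr⟩
        exact h ⟨x, hxS, (mem_Ioc.mp hx).1, hxr⟩
      rw [hzero]
      have h1 : 15 * n * 1 ≤ 15 * n * a := Nat.mul_le_mul_left _ ha
      have h2 : y - vv Sg a n r = 0 := by rw [hv]; omega
      rw [h2, Nat.zero_div]
    · intro x hx hx0 hxr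
      exact absurd ⟨x, hx, hx0, hxr⟩ h

lemma phi_step (n a v j : ℕ) (ha : 0 < a) (h : v + j * a ≤ 2 * n) :
    phi n a (v + j * a) = phi n a v + j := by
  have e : ∀ k, 2 ≤ k → (((k * n - v) / a : ℕ) : ℤ) = (((k * n - (v + j * a)) / a : ℕ) : ℤ) + j := by
    intro k hk
    have h2 : v + j * a ≤ k * n := le_trans h (Nat.mul_le_mul_right n hk)
    have h3 : k * n - v = (k * n - (v + j * a)) + a * j := by
      rw [mul_comm a j]; omega
    rw [h3, Nat.add_mul_div_left _ _ ha]
    push_cast
    ring
  unfold phi
  rw [e 15 (by norm_num), e 10 (by norm_num), e 4 (by norm_num), e 2 (by norm_num),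
    e 3 (by norm_num)]
  ring

/-- The semigroup inequality. -/
theorem semigroup_ineq (n : ℕ) :
    (cnt Sg (3 * n) : ℤ) + cnt Sg (4 * n) - cnt Sg (2 * n) ≤ cnt Sg (15 * n) - cnt Sg (10 * n) := by
  by_cases hex : ∃ x, x ∈ Sg ∧ 0 < x ∧ x ≤ 4 * n
  · have hex' : ∃ x, x ∈ Sg ∧ 0 < x := by
      obtain ⟨x, h1, h2, _⟩ := hex; exact ⟨x, h1, h2⟩
    obtain ⟨haS, ha⟩ := Nat.find_spec hex'
    have hmin : ∀ x ∈ Sg, 0 < x → Nat.find hex' ≤ x := fun x hx hx0 =>
      Nat.find_min' hex' ⟨hx, hx0⟩
    have han : Nat.find hex' ≤ 4 * n := by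
      obtain ⟨x, h1, h2, h3⟩ := hex
      exact (hmin x h1 h2).trans h3
    generalize Nat.find hex' = a at haS ha hmin han
    have spec := fun r (hr : r < a) => vv_spec Sg a n r ha haS hmin hr
    suffices hsum : 0 ≤ ∑ r ∈ range a, phi n a (vv Sg a n r) by
      have e : ∀ y ≤ 15 * n, (cnt Sg y : ℤ) =
          ∑ r ∈ range a, (((y - vv Sg a n r) / a : ℕ) : ℤ) := by
        intro y hy
        rw [cnt_eq_sum Sg a y ha, Nat.cast_sum]
        apply Finset.sum_congr rfl
        intro r hr
        rw [(spec r (mem_range.mp hr)).2.2.1 y hy]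
      unfold phi at hsum
      rw [Finset.sum_sub_distrib, Finset.sum_add_distrib, Finset.sum_sub_distrib,
        Finset.sum_sub_distrib, ← e _ (by omega), ← e _ (by omega), ← e _ (by omega),
        ← e _ (by omega), ← e _ (by omega)] at hsum
      linarith
    -- the negative classes
    set v := vv Sg a n with hv
    let R := (range a).filter (fun r => phi n a (v r) < 0)
    have hR : ∀ r ∈ R, 1 ≤ r ∧ v r = r ∧ r ≤ 2 * n ∧ phi n a r < 0 ∧ r < a := by
      intro r hr
      rw [mem_filter, mem_range] at hr
      obtain ⟨hra, hneg⟩ := hr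
      obtain ⟨h1, h2, h3, h4⟩ := spec r hra
      have hr1 : 1 ≤ r := by
        rcases Nat.eq_zero_or_pos r with h0 | h0
        · exfalso
          rw [h2 h0] at hneg
          have := phi_zero n a ha
          omega
        · exact h0
      have hvr : 1 ≤ v r := by
        rcases Nat.eq_zero_or_pos (v r) with h0 | h0
        · rw [h0, Nat.zero_mod] at h1; omega
        · exact h0
      have hb := phi_bounds n a (v r) ha han hvr
      have hlt : v r < a := by
        by_contra hcon
        push Not at hcon
        have := hb.2.1 (Or.inl hcon)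
        omega
      have hle : v r ≤ 2 * n := by
        by_contra hcon
        push Not at hcon
        have := hb.2.1 (Or.inr hcon)
        omega
      have hvr' : v r = r := by
        rw [Nat.mod_eq_of_lt hlt] at h1; exact h1
      rw [hvr'] at hle hneg
      exact ⟨hr1, hvr', hle, hneg, hra⟩
    have hge : ∀ r ∈ range a, -1 ≤ phi n a (v r) := by
      intro r hr
      rw [mem_range] at hr
      obtain ⟨h1, h2, h3, h4⟩ := spec r hr
      rcases Nat.eq_zero_or_pos (v r) with h0 | h0
      · rw [h0]; have := phi_zero n a ha; omega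
      · exact (phi_bounds n a (v r) ha han h0).1
    -- the multiplier
    obtain ⟨k, hk1, hk5, hk⟩ : ∃ k, 1 ≤ k ∧ k ≤ 5 ∧ ∀ r ∈ R, k * r < a ∧ 1 ≤ phi n a (k * r) := by
      rcases Nat.lt_or_ge (2 * (n % a)) a with h | h
      · refine ⟨2, by norm_num, by norm_num, fun r hr => ?_⟩
        obtain ⟨h1, h2, h3, h4, h5⟩ := hR r hr
        exact (phi_comp n a r ha han h5 h3 h4).2.1 h
      · refine ⟨5, by norm_num, by norm_num, fun r hr => ?_⟩
        obtain ⟨h1, h2, h3, h4, h5⟩ := hR r hr
        exact (phi_comp n a r ha han h5 h3 h4).2.2 h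
    have hpos : ∀ r ∈ R, 1 ≤ phi n a (v (k * r)) := by
      intro r hr
      obtain ⟨h1, h2, h3, h4, h5⟩ := hR r hr
      obtain ⟨hk6, hk7⟩ := hk r hr
      have ha2 : a ≤ 2 * n := (phi_comp n a r ha han h5 h3 h4).1
      obtain ⟨g1, g2, g3, g4⟩ := spec (k * r) hk6
      -- `a + r ∈ Sg`
      have harS : a + r ∈ Sg := by
        by_cases hc : ∃ x, x ∈ Sg ∧ 0 < x ∧ x % a = r
        · have hvd : v r = Nat.find hc - a := by rw [hv]; unfold vv; rw [dif_pos hc]
          obtain ⟨f1, f2, f3⟩ := Nat.find_spec hc
          have f4 := hmin _ f1 f2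
          have : a + r = Nat.find hc := by omega
          rw [this]; exact f1
        · exfalso
          have hvd : v r = r + 15 * n * a := by rw [hv]; unfold vv; rw [dif_neg hc]
          have hn : 0 < n := by omega
          have : 0 < 15 * n * a := by positivity
          omega
      have hkS : k * (a + r) ∈ Sg := by
        have := Sg.nsmul_mem harS k
        simpa using this
      have hmod : (k * (a + r)) % a = k * r := by
        rw [mul_add, add_comm, Nat.add_mul_mod_self_right, Nat.mod_eq_of_lt hk6]
      have hle := g4 (k * (a + r)) hkS (by positivity) hmod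
      -- `v (k r) = k r + j a`
      obtain ⟨j, hj⟩ : ∃ j, v (k * r) = k * r + j * a := by
        refine ⟨v (k * r) / a, ?_⟩
        have := Nat.mod_add_div (v (k * r)) a
        rw [g1, mul_comm a] at this
        exact this.symm
      by_cases h2n : v (k * r) ≤ 2 * n
      · rw [hj] at h2n ⊢
        rw [phi_step n a _ j ha h2n]
        omega
      · push Not at h2n
        refine (phi_bounds n a (v (k * r)) ha han ?_).2.2 h2n ?_ ha2
        · omega
        · have e1 : k * (a + r) = k * a + k * r := by ring
          have e2 : k * a ≤ 5 * a := Nat.mul_le_mul_right a hk5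
          omega
    -- conclusion
    have hinj : Set.InjOn (fun r => k * r) (R : Set ℕ) := by
      intro x _ y _ hxy
      exact Nat.eq_of_mul_eq_mul_left (by omega) hxy
    let P := R.image (fun r => k * r)
    have hPsub : P ⊆ (range a).filter (fun r => ¬ phi n a (v r) < 0) := by
      intro x hx
      rw [mem_image] at hx
      obtain ⟨r, hr, rfl⟩ := hx
      rw [mem_filter, mem_range]
      refine ⟨(hk r hr).1, ?_⟩
      have := hpos r hr
      omega
    rw [← Finset.sum_filter_add_sum_filter_not (range a) (fun r => phi n a (v r) < 0)]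
    have s1 : -(R.card : ℤ) ≤ ∑ r ∈ (range a).filter (fun r => phi n a (v r) < 0),
        phi n a (v r) := by
      have : ∑ r ∈ R, (-1 : ℤ) ≤ ∑ r ∈ R, phi n a (v r) :=
        Finset.sum_le_sum (fun r hr => hge r (mem_of_mem_filter r hr))
      simpa using this
    have s2 : (R.card : ℤ) ≤ ∑ r ∈ (range a).filter (fun r => ¬ phi n a (v r) < 0),
        phi n a (v r) := by
      calc (R.card : ℤ) = (P.card : ℤ) := by rw [Finset.card_image_of_injOn hinj]
        _ = ∑ r ∈ P, (1 : ℤ) := by simp
        _ ≤ ∑ r ∈ P, phi n a (v r) := by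
          apply Finset.sum_le_sum
          intro x hx
          rw [mem_image] at hx
          obtain ⟨r, hr, rfl⟩ := hx
          exact hpos r hr
        _ ≤ _ := by
          apply Finset.sum_le_sum_of_subset_of_nonneg hPsub
          intro x hx _
          rw [mem_filter] at hx
          omega
    linarith
  · -- no positive element `≤ 4 n`
    have hz : ∀ y ≤ 4 * n, cnt Sg y = 0 := by
      intro y hy
      unfold cnt
      rw [card_eq_zero, filter_eq_empty_iff]
      intro x hx hxS
      rw [mem_Ioc] at hx
      exact hex ⟨x, hxS, hx.1, hx.2.trans hy⟩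
    rw [hz _ (by omega), hz _ (by omega), hz _ (by omega)]
    have hmono : cnt Sg (10 * n) ≤ cnt Sg (15 * n) := by
      unfold cnt
      apply card_le_card
      apply filter_subset_filter
      apply Ioc_subset_Ioc_right
      omega
    push_cast
    omega

end

end Pool.Agent.Helper51
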