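import Pool.Agent.Helper51.Positivity
import Pool.Agent.Helper51.Semigroup
import Mathlib.RingTheory.Polynomial.Cyclotomic.Basic
import Mathlib.NumberTheory.ArithmeticFunction.Misc
import Mathlib.RingTheory.PowerSeries.Basic
import Mathlib.RingTheory.PowerSeries.NoZeroDivisors
import Mathlib.Data.Nat.Factorization.Basic

open Polynomial

namespace Pool.Agent.Helper51

section Cyclo

/-- the `q`-factorial -/
noncomputable def qf (k : ℕ) : ℤ[X] := ∏ i ∈ Finset.range k, (1 - X ^ (i + 1))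

lemma qf_eq (K k : ℕ) (hk : k ≤ K) :
    qf k = (-1) ^ k * ∏ d ∈ Finset.Ioc 0 K, cyclotomic d ℤ ^ (k / d) := by
  have h1 : ∀ i ∈ Finset.range k, (1 - X ^ (i + 1) : ℤ[X]) =
      (-1) * ∏ d ∈ Finset.Ioc 0 K, (if d ∣ i + 1 then cyclotomic d ℤ else 1) := by
    intro i hi
    have hi' := Finset.mem_range.mp hi
    rw [← Finset.prod_filter]
    have h2 : (Finset.Ioc 0 K).filter (fun d => d ∣ i + 1) = Nat.divisors (i + 1) := by
      ext d
      simp only [Finset.mem_filter, Finset.mem_Ioc, Nat.mem_divisors]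
      constructor
      · rintro ⟨_, h⟩; exact ⟨h, by omega⟩
      · rintro ⟨h, _⟩
        exact ⟨⟨Nat.pos_of_dvd_of_pos h (by omega), (Nat.le_of_dvd (by omega) h).trans (by omega)⟩, h⟩
    rw [h2, prod_cyclotomic_eq_X_pow_sub_one (by omega)]
    ring
  unfold qf
  rw [Finset.prod_congr rfl h1, Finset.prod_mul_distrib, Finset.prod_const, Finset.card_range,
    Finset.prod_comm]
  congr 1
  apply Finset.prod_congr rfl
  intro d _
  rw [← Finset.prod_filter, Finset.prod_const, Nat.card_multiples]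

lemma qf_ne_zero (k : ℕ) : qf k ≠ 0 := by
  unfold qf
  rw [Finset.prod_ne_zero_iff]
  intro i _ h
  have := congrArg (fun p : ℤ[X] => p.coeff 0) h
  simp at this

lemma qf_dvd (n : ℕ) :
    qf (10 * n) * qf (4 * n) * qf (3 * n) ∣ qf (15 * n) * qf (2 * n) := by
  rw [qf_eq (15 * n) (10 * n) (by omega), qf_eq (15 * n) (4 * n) (by omega),
    qf_eq (15 * n) (3 * n) (by omega), qf_eq (15 * n) (15 * n) (by omega),
    qf_eq (15 * n) (2 * n) (by omega)]
  have e1 : ((-1) ^ (10 * n) * ∏ d ∈ Finset.Ioc 0 (15 * n), cyclotomic d ℤ ^ (10 * n / d)) *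
      ((-1) ^ (4 * n) * ∏ d ∈ Finset.Ioc 0 (15 * n), cyclotomic d ℤ ^ (4 * n / d)) *
      ((-1) ^ (3 * n) * ∏ d ∈ Finset.Ioc 0 (15 * n), cyclotomic d ℤ ^ (3 * n / d)) =
      (-1) ^ (17 * n) * ∏ d ∈ Finset.Ioc 0 (15 * n),
        cyclotomic d ℤ ^ (10 * n / d + 4 * n / d + 3 * n / d) := by
    have : ∏ d ∈ Finset.Ioc 0 (15 * n), cyclotomic d ℤ ^ (10 * n / d + 4 * n / d + 3 * n / d) =
        (∏ d ∈ Finset.Ioc 0 (15 * n), cyclotomic d ℤ ^ (10 * n / d)) *
        (∏ d ∈ Finset.Ioc 0 (15 * n), cyclotomic d ℤ ^ (4 * n / d)) *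
        (∏ d ∈ Finset.Ioc 0 (15 * n), cyclotomic d ℤ ^ (3 * n / d)) := by
      rw [← Finset.prod_mul_distrib, ← Finset.prod_mul_distrib]
      exact Finset.prod_congr rfl (fun d _ => by rw [pow_add, pow_add])
    rw [this, show 17 * n = 10 * n + 4 * n + 3 * n by ring, pow_add, pow_add]
    ring
  have e2 : ((-1) ^ (15 * n) * ∏ d ∈ Finset.Ioc 0 (15 * n), cyclotomic d ℤ ^ (15 * n / d)) *
      ((-1) ^ (2 * n) * ∏ d ∈ Finset.Ioc 0 (15 * n), cyclotomic d ℤ ^ (2 * n / d)) =
      (-1) ^ (17 * n) * ∏ d ∈ Finset.Ioc 0 (15 * n),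
        cyclotomic d ℤ ^ (15 * n / d + 2 * n / d) := by
    have : ∏ d ∈ Finset.Ioc 0 (15 * n), cyclotomic d ℤ ^ (15 * n / d + 2 * n / d) =
        (∏ d ∈ Finset.Ioc 0 (15 * n), cyclotomic d ℤ ^ (15 * n / d)) *
        (∏ d ∈ Finset.Ioc 0 (15 * n), cyclotomic d ℤ ^ (2 * n / d)) := by
      rw [← Finset.prod_mul_distrib]
      exact Finset.prod_congr rfl (fun d _ => by rw [pow_add])
    rw [this, show 17 * n = 15 * n + 2 * n by ring, pow_add]
    ring
  rw [e1, e2]
  apply mul_dvd_mul_left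
  apply Finset.prod_dvd_prod_of_dvd
  intro d hd
  apply pow_dvd_pow
  have hd0 : 0 < d := (Finset.mem_Ioc.mp hd).1
  have := phi_zero n d hd0
  unfold phi at this
  simp only [Nat.sub_zero] at this
  omega

end Cyclo

section Hall

open Finset

lemma exists_comb_of_mem_closure {ι : Type} [Fintype ι] [DecidableEq ι] (w : ι → ℕ)
    (S : Finset ι) {x : ℕ} (hx : x ∈ AddSubmonoid.closure (w '' (S : Set ι))) :
    ∃ a : ι → ℕ, ∑ k, a k * w k = x ∧ ∀ k ∉ S, a k = 0 := by
  induction hx using AddSubmonoid.closure_induction with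
  | mem x hx =>
    obtain ⟨k, hk, rfl⟩ := hx
    refine ⟨Pi.single k 1, ?_, ?_⟩
    · rw [Finset.sum_eq_single k]
      · simp
      · intro b _ hb
        simp [hb]
      · intro h; exact absurd (mem_univ k) h
    · intro b hb
      have : b ≠ k := by rintro rfl; exact hb hk
      simp [this]
  | zero => exact ⟨0, by simp, by simp⟩
  | add x y _ _ hx hy =>
    obtain ⟨a, ha, ha'⟩ := hx
    obtain ⟨b, hb, hb'⟩ := hy
    refine ⟨a + b, ?_, ?_⟩
    · simp only [Pi.add_apply, add_mul, sum_add_distrib, ha, hb]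
    · intro k hk
      simp [ha' k hk, hb' k hk]

/-- the weights -/
def wgt (n : ℕ) : Fin (3 * n) ⊕ Fin (2 * n) → ℕ :=
  Sum.elim (fun i => i.1 + 1) (fun j => 2 * n + j.1 + 1)

/-- the degrees -/
def deg (n : ℕ) : Fin (5 * n) → ℕ := fun i => 10 * n + i.1 + 1

open Classical in
lemma hall_cond (n : ℕ) (S : Finset (Fin (3 * n) ⊕ Fin (2 * n))) :
    ∃ T : Finset (Fin (5 * n)), S.card ≤ T.card ∧
      ∀ i ∈ T, ∃ a : Fin (3 * n) ⊕ Fin (2 * n) → ℕ,
        ∑ k, a k * wgt n k = deg n i ∧ ∀ k ∉ S, a k = 0 := by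
  set Sg := AddSubmonoid.closure (wgt n '' (S : Set _)) with hSg
  refine ⟨univ.filter (fun i => deg n i ∈ Sg), ?_, ?_⟩
  · have hineq := semigroup_ineq Sg n
    have hsub : ∀ x y, x ≤ y → (cnt Sg y : ℤ) - cnt Sg x =
        ((Ioc x y).filter (fun z => z ∈ Sg)).card := by
      intro x y hxy
      have : cnt Sg y = cnt Sg x + ((Ioc x y).filter (fun z => z ∈ Sg)).card := by
        unfold cnt
        rw [← card_union_of_disjoint]
        · congr 1
          rw [← filter_union, Ioc_union_Ioc_eq_Ioc (Nat.zero_le x) hxy]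
        · apply disjoint_filter_filter
          rw [disjoint_left]
          intro z h1 h2
          rw [mem_Ioc] at h1 h2
          omega
      rw [this]; push_cast; ring
    have hL : S.toLeft.card ≤ cnt Sg (3 * n) := by
      unfold cnt
      rw [← card_image_of_injective S.toLeft (f := fun i : Fin (3 * n) => i.1 + 1)
        (fun i j h => Fin.ext (by simpa using h))]
      apply card_le_card
      intro x hx
      rw [mem_image] at hx
      obtain ⟨i, hi, rfl⟩ := hx
      rw [mem_filter, mem_Ioc]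
      refine ⟨⟨by omega, by omega⟩, ?_⟩
      apply AddSubmonoid.subset_closure
      exact ⟨Sum.inl i, by simpa using hi, rfl⟩
    have hR : S.toRight.card ≤ ((Ioc (2 * n) (4 * n)).filter (fun z => z ∈ Sg)).card := by
      rw [← card_image_of_injective S.toRight (f := fun i : Fin (2 * n) => 2 * n + i.1 + 1)
        (fun i j h => Fin.ext (by simpa using h))]
      apply card_le_card
      intro x hx
      rw [mem_image] at hx
      obtain ⟨i, hi, rfl⟩ := hx
      rw [mem_filter, mem_Ioc]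
      refine ⟨⟨by omega, by omega⟩, ?_⟩
      apply AddSubmonoid.subset_closure
      exact ⟨Sum.inr i, by simpa using hi, rfl⟩
    have hS : S.card = S.toLeft.card + S.toRight.card := (card_toLeft_add_card_toRight).symm
    have h1 := hsub (2 * n) (4 * n) (by omega)
    have h2 := hsub (10 * n) (15 * n) (by omega)
    have h3 : ((Ioc (10 * n) (15 * n)).filter (fun z => z ∈ Sg)).card ≤
        (univ.filter (fun i => deg n i ∈ Sg)).card := by
      refine le_trans (card_le_card ?_) (card_image_le (f := deg n))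
      intro x hx
      rw [mem_filter, mem_Ioc] at hx
      rw [mem_image]
      have e : deg n ⟨x - 10 * n - 1, by omega⟩ = x := by
        unfold deg; simp only; omega
      exact ⟨⟨x - 10 * n - 1, by omega⟩, by rw [mem_filter, e]; exact ⟨mem_univ _, hx.2⟩, e⟩
    have h4 : (S.card : ℤ) ≤ ((univ.filter (fun i => deg n i ∈ Sg)).card : ℤ) := by
      have a1 : (S.toLeft.card : ℤ) ≤ cnt Sg (3 * n) := by exact_mod_cast hL
      have a2 : (S.toRight.card : ℤ) ≤
          ((Ioc (2 * n) (4 * n)).filter (fun z => z ∈ Sg)).card := by exact_mod_cast hR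
      have a3 : (((Ioc (10 * n) (15 * n)).filter (fun z => z ∈ Sg)).card : ℤ) ≤
        (univ.filter (fun i => deg n i ∈ Sg)).card := by exact_mod_cast h3
      rw [hS]
      push_cast
      linarith
    exact_mod_cast h4
  · intro i hi
    rw [mem_filter] at hi
    exact exists_comb_of_mem_closure _ S hi.2

end Hall

/-- The main result. -/
theorem main (n : ℕ) :
    ∃ P : ℤ[X], (∀ k : ℕ, 0 ≤ P.coeff k) ∧
      qf (15 * n) * qf (2 * n) = P * (qf (10 * n) * qf (4 * n) * qf (3 * n)) := by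
  obtain ⟨P, hP⟩ := qf_dvd n
  refine ⟨P, ?_, by rw [hP, mul_comm]⟩
  obtain ⟨H, hH, hHe⟩ := positivity_of_hall (wgt n) (by
    intro k
    cases k <;> simp [wgt]) (deg n) (by simp; omega) (hall_cond n)
  -- rewrite the products
  have hqf : ∀ k, ((qf k : ℤ[X]) : PowerSeries ℤ) =
      ∏ i ∈ Finset.range k, (1 - PowerSeries.X ^ (i + 1)) := by
    intro k
    unfold qf
    rw [← Polynomial.coeToPowerSeries.ringHom_apply, map_prod]
    apply Finset.prod_congr rfl
    intro i _
    simp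
  have e1 : ∏ k, (1 - PowerSeries.X ^ wgt n k : PowerSeries ℤ) =
      (∏ i ∈ Finset.range (3 * n), (1 - PowerSeries.X ^ (i + 1))) *
      ∏ j ∈ Finset.range (2 * n), (1 - PowerSeries.X ^ (2 * n + j + 1)) := by
    rw [Fintype.prod_sum_type]
    simp only [wgt, Sum.elim_inl, Sum.elim_inr]
    rw [Fin.prod_univ_eq_prod_range (fun i => (1 - PowerSeries.X ^ (i + 1) : PowerSeries ℤ)),
      Fin.prod_univ_eq_prod_range (fun j => (1 - PowerSeries.X ^ (2 * n + j + 1) : PowerSeries ℤ))]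
  have e2 : ∏ i, (1 - PowerSeries.X ^ deg n i : PowerSeries ℤ) =
      ∏ j ∈ Finset.range (5 * n), (1 - PowerSeries.X ^ (10 * n + j + 1)) := by
    simp only [deg]
    rw [Fin.prod_univ_eq_prod_range (fun j => (1 - PowerSeries.X ^ (10 * n + j + 1) : PowerSeries ℤ))]
  have e3 : ((qf (4 * n) : ℤ[X]) : PowerSeries ℤ) = (qf (2 * n) : ℤ[X]) *
      ∏ j ∈ Finset.range (2 * n), (1 - PowerSeries.X ^ (2 * n + j + 1)) := by
    rw [hqf, hqf, show 4 * n = 2 * n + 2 * n by ring, Finset.prod_range_add]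
  have e4 : ((qf (15 * n) : ℤ[X]) : PowerSeries ℤ) = (qf (10 * n) : ℤ[X]) *
      ∏ j ∈ Finset.range (5 * n), (1 - PowerSeries.X ^ (10 * n + j + 1)) := by
    rw [hqf, hqf, show 15 * n = 10 * n + 5 * n by ring, Finset.prod_range_add]
  have hD : ((qf (10 * n) * qf (4 * n) * qf (3 * n) : ℤ[X]) : PowerSeries ℤ) ≠ 0 := by
    intro h
    have : (qf (10 * n) * qf (4 * n) * qf (3 * n) : ℤ[X]) = 0 := by
      exact_mod_cast h
    exact mul_ne_zero (mul_ne_zero (qf_ne_zero _) (qf_ne_zero _)) (qf_ne_zero _) this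
  have hPH : ((P : ℤ[X]) : PowerSeries ℤ) = H := by
    apply mul_left_cancel₀ hD
    rw [← Polynomial.coe_mul, ← hP, Polynomial.coe_mul, e4, Polynomial.coe_mul, Polynomial.coe_mul,
      e3, ← e2, ← hHe, e1, ← hqf (3 * n)]
    ring
  intro k
  rw [← Polynomial.coeff_coe, hPH]
  exact hH k

end Pool.Agent.Helper51
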