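import Pool.Agent.Helper51.ExtLemma
import Mathlib.RingTheory.Localization.Away.Basic
import Mathlib.RingTheory.Ideal.AssociatedPrime.Basic

open RingTheory.Sequence Pointwise

universe u

namespace Pool.Agent.Helper51

/-- One step of the construction of a weakly regular sequence: if every prime containing `fs` and
`g` contains, up to inverting an element outside it, a longer weakly regular sequence than `fs`,
then `g` can be appended to the weakly regular sequence `fs`. -/
theorem regular_step {A : Type u} [CommRing A] [IsNoetherianRing A] (fs : List A) (g : A)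
    (hfs : IsWeaklyRegular A fs)
    (H : ∀ Q : Ideal A, Q.IsPrime → (∀ f ∈ fs, f ∈ Q) → g ∈ Q →
      ∃ (s : A) (ys : List A), s ∉ Q ∧ (∀ y ∈ ys, y ∈ Q) ∧ fs.length < ys.length ∧
        IsWeaklyRegular (Localization.Away s) ys) :
    IsWeaklyRegular A (fs ++ [g]) := by
  rw [isWeaklyRegular_append_iff, isWeaklyRegular_cons_iff]
  refine ⟨hfs, ?_, IsWeaklyRegular.nil _ _⟩
  rw [isSMulRegular_iff_right_eq_zero_of_smul]
  intro x hx
  by_contra hx0
  obtain ⟨Q, hQ, hann⟩ := exists_le_isAssociatedPrime_of_isNoetherianRing A x hx0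
  rw [isAssociatedPrime_iff] at hQ
  obtain ⟨hQp, y, hy⟩ := hQ
  have memQ : ∀ a : A, a ∈ Q ↔ a • y = 0 := by
    intro a
    rw [hy, Submodule.mem_colon_singleton, Submodule.mem_bot]
  obtain ⟨c, rfl⟩ := Submodule.Quotient.mk_surjective _ y
  have hJ : (Ideal.ofList fs • ⊤ : Submodule A A) = Ideal.ofList fs := by
    simp
  have hgQ : g ∈ Q := hann (by
    rw [Submodule.mem_colon_singleton]; simpa using hx)
  have hfQ : ∀ f ∈ fs, f ∈ Q := by
    intro f hf
    rw [memQ, ← Submodule.Quotient.mk_smul, Submodule.Quotient.mk_eq_zero, hJ]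
    exact Ideal.mul_mem_right _ _ (Ideal.subset_span hf)
  obtain ⟨s, ys, hs, hys, hlen, hreg⟩ := H Q hQp hfQ hgQ
  have hfsM : IsWeaklyRegular (Localization.Away s) fs := by
    rw [← isWeaklyRegular_map_algebraMap_iff (S := Localization.Away s)]
    exact hfs.of_isLocalization (Localization.Away s) (Submonoid.powers s)
  let η : (A ⧸ (Ideal.ofList fs • ⊤ : Submodule A A)) →ₗ[A]
      (Localization.Away s ⧸ (Ideal.ofList fs • ⊤ : Submodule A (Localization.Away s))) :=
    Submodule.mapQ _ _ (Algebra.linearMap A (Localization.Away s))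
      (Submodule.smul_top_le_comap_smul_top _ _)
  let φ : (A ⧸ Q) →ₗ[A]
      (Localization.Away s ⧸ (Ideal.ofList fs • ⊤ : Submodule A (Localization.Away s))) :=
    Submodule.liftQ Q (LinearMap.toSpanSingleton A _ (η (Submodule.Quotient.mk c))) (by
      intro a ha
      rw [LinearMap.mem_ker, LinearMap.toSpanSingleton_apply, ← map_smul, (memQ a).mp ha, map_zero])
  have hφ : φ = 0 := linearMap_eq_zero ys fs hreg (fun y hy => by
    rw [Ideal.annihilator_quotient]; exact hys y hy) hfsM hlen φ
  have h0 : η (Submodule.Quotient.mk c) = 0 := by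
    have h3 := LinearMap.congr_fun hφ (Submodule.Quotient.mk 1)
    have h4 : φ (Submodule.Quotient.mk 1) = (1 : A) • η (Submodule.Quotient.mk c) := rfl
    rw [h4, one_smul] at h3
    exact h3
  have h1 : algebraMap A (Localization.Away s) c ∈
      (Ideal.ofList fs).map (algebraMap A (Localization.Away s)) := by
    have h2 : η (Submodule.Quotient.mk c) =
      Submodule.Quotient.mk (algebraMap A (Localization.Away s) c) := rfl
    rw [h2, Submodule.Quotient.mk_eq_zero, Ideal.smul_top_eq_map] at h0
    exact h0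
  rw [IsLocalization.mem_map_algebraMap_iff (Submonoid.powers s)] at h1
  obtain ⟨⟨j, t⟩, hjt⟩ := h1
  rw [← map_mul, IsLocalization.eq_iff_exists (Submonoid.powers s)] at hjt
  obtain ⟨v, hv⟩ := hjt
  have hmem : (v : A) * (t : A) ∈ Q := by
    rw [memQ, ← Submodule.Quotient.mk_smul, Submodule.Quotient.mk_eq_zero, hJ]
    have : ((v : A) * (t : A)) • c = v * j := by
      rw [smul_eq_mul, ← hv]; ring
    rw [this]
    exact Ideal.mul_mem_left _ _ j.2
  obtain ⟨n, hn⟩ := v.2
  obtain ⟨n', hn'⟩ := t.2
  have hn1 : s ^ n = (v : A) := hn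
  have hn2 : s ^ n' = (t : A) := hn'
  rw [← hn1, ← hn2, ← pow_add] at hmem
  exact hs (hQp.mem_of_pow_mem _ hmem)

end Pool.Agent.Helper51
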